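import Mathlib
import Pool.Agent.H22.KF.Defs
import Pool.Agent.H22.KF.Group
import Pool.Agent.H22.KF.Frames
import Pool.Agent.H22.KF.Targets

/-!
# MP_3fd637_nt : module FD
-/

open MeasureTheory Filter Topology
open scoped ENNReal Pointwise

namespace KF

namespace FDm

theorem det_toR (γ : GZ) : |detR (toR γ)| = 1 := by
  have h1 : detR (toR γ) = (((γ : MZ).det : ℤ) : ℝ) := by
    unfold detR
    have : (toR γ : MR) = (γ : MZ).map (Int.castRingHom ℝ) := rfl
    rw [this]
    exact (RingHom.map_det (Int.castRingHom ℝ) (γ : MZ)).symm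
  have h2 : IsUnit ((γ : MZ).det) := (Matrix.isUnit_iff_isUnit_det _).1 γ.isUnit
  rw [h1]
  rcases Int.isUnit_iff.1 h2 with h | h <;> simp [h]

theorem det_scal (k : ℤ) : detR (scal k) = (8 : ℝ) ^ k := by
  unfold detR scal
  rw [dg_coe, Matrix.det_diagonal, Finset.prod_const, Finset.card_univ, Fintype.card_fin,
    mul_comm, ← Real.rpow_def_of_pos (by norm_num : (0 : ℝ) < 2), Real.rpow_intCast,
    ← zpow_natCast, ← zpow_mul, mul_comm k, zpow_mul]
  norm_num

theorem continuous_detR : Continuous detR :=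
  Continuous.matrix_det isEmbedding_coe.continuous

/-- a neighbourhood of `1` meeting `Gam` only in `1` -/
def U1 : Set GR := {g | 1 / 8 < |detR g| ∧ |detR g| < 8 ∧
  ∀ i j, |(g : MR) i j - (1 : MR) i j| < 1 / 2}

theorem isOpen_U1 : IsOpen U1 := by
  have h1 : IsOpen {g : GR | 1 / 8 < |detR g|} :=
    isOpen_lt continuous_const continuous_detR.abs
  have h2 : IsOpen {g : GR | |detR g| < 8} :=
    isOpen_lt continuous_detR.abs continuous_const
  have h3 : IsOpen {g : GR | ∀ i j, |(g : MR) i j - (1 : MR) i j| < 1 / 2} := by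
    have : {g : GR | ∀ i j, |(g : MR) i j - (1 : MR) i j| < 1 / 2}
        = ⋂ i, ⋂ j, {g : GR | |(g : MR) i j - (1 : MR) i j| < 1 / 2} := by
      ext g; simp
    rw [this]
    refine isOpen_iInter_of_finite (fun i => isOpen_iInter_of_finite (fun j => ?_))
    refine isOpen_lt ?_ continuous_const
    refine Continuous.abs ?_
    refine Continuous.sub ?_ continuous_const
    exact (continuous_apply_apply i j).comp isEmbedding_coe.continuous
  exact h1.inter (h2.inter h3)

theorem one_mem_U1 : (1 : GR) ∈ U1 := by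
  have : detR (1 : GR) = 1 := by unfold detR; simp
  refine ⟨by rw [this]; norm_num, by rw [this]; norm_num, fun i j => ?_⟩
  simp

theorem U1_inter (g : GR) (hg : g ∈ Gam) (hU : g ∈ U1) : g = 1 := by
  obtain ⟨γ, k, rfl⟩ := hg
  obtain ⟨h1, h2, h3⟩ := hU
  have hd : |detR (toR γ * scal k)| = (8 : ℝ) ^ k := by
    have : detR (toR γ * scal k) = detR (toR γ) * detR (scal k) := by
      unfold detR; rw [Units.val_mul, Matrix.det_mul]
    rw [this, abs_mul, det_toR, one_mul, det_scal, abs_of_pos (by positivity)]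
  rw [hd] at h1 h2
  have hk : k = 0 := by
    have a1 : k < 1 := by
      by_contra hc
      push Not at hc
      have : (8 : ℝ) ^ (1 : ℤ) ≤ 8 ^ k := zpow_le_zpow_right₀ (by norm_num) hc
      rw [zpow_one] at this
      linarith
    have a2 : -1 < k := by
      by_contra hc
      push Not at hc
      have : (8 : ℝ) ^ k ≤ 8 ^ (-1 : ℤ) := zpow_le_zpow_right₀ (by norm_num) hc
      have e : (8 : ℝ) ^ (-1 : ℤ) = 1 / 8 := by norm_num
      rw [e] at this
      linarith
    omega
  subst hk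
  rw [scal_zero, mul_one] at h3 ⊢
  have : γ = 1 := by
    apply Units.ext
    ext i j
    have := h3 i j
    rw [toR_apply] at this
    have e : (1 : MR) i j = (((1 : MZ) i j : ℤ) : ℝ) := by
      by_cases hij : i = j
      · subst hij; simp
      · simp [Matrix.one_apply_ne hij]
    rw [e, ← Int.cast_sub, ← Int.cast_abs] at this
    have h5 : |(γ : MZ) i j - (1 : MZ) i j| < 1 := by
      have : ((|(γ : MZ) i j - (1 : MZ) i j| : ℤ) : ℝ) < ((1 : ℤ) : ℝ) := by
        push_cast
        push_cast at this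
        linarith
      exact_mod_cast this
    have h6 := Int.abs_lt_one_iff.1 h5
    have : ((1 : GZ) : MZ) i j = (1 : MZ) i j := rfl
    rw [this]
    omega
  rw [this, map_one]

theorem disc : DiscreteTopology Gam := by
  apply discreteTopology_of_isOpen_singleton_one
  rw [isOpen_induced_iff]
  refine ⟨U1, isOpen_U1, ?_⟩
  ext γ
  simp only [Set.mem_preimage, Set.mem_singleton_iff]
  constructor
  · intro h
    exact Subtype.ext (U1_inter _ γ.2 h)
  · rintro rfl
    exact one_mem_U1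

theorem count : Countable Gam := by
  have := disc
  exact TopologicalSpace.separableSpace_iff_countable.1 inferInstance

theorem closed : IsClosed (Gam : Set GR) := by
  have := disc
  exact Subgroup.isClosed_of_discrete

theorem t_DISC : T_DISC := ⟨disc, count, closed⟩

/-- a small open neighbourhood `W` of `1` with `W⁻¹ W ∩ Gam = {1}` -/
theorem exists_W : ∃ W : Set GR, IsOpen W ∧ (1 : GR) ∈ W ∧
    ∀ x ∈ W, ∀ y ∈ W, x⁻¹ * y ∈ Gam → x = y := by
  have hf : Continuous (fun p : GR × GR => p.1⁻¹ * p.2) := continuous_fst.inv.mul continuous_snd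
  have hO := isOpen_U1.preimage hf
  have h11 : ((1 : GR), (1 : GR)) ∈ (fun p : GR × GR => p.1⁻¹ * p.2) ⁻¹' U1 := by
    rw [Set.mem_preimage]
    dsimp only
    rw [inv_one, mul_one]
    exact one_mem_U1
  obtain ⟨s, t, hs, ht, h1s, h1t, hst⟩ := isOpen_prod_iff.1 hO 1 1 h11
  refine ⟨s ∩ t, hs.inter ht, ⟨h1s, h1t⟩, fun x hx y hy hG => ?_⟩
  have h2 : ((x, y) : GR × GR) ∈ (fun p : GR × GR => p.1⁻¹ * p.2) ⁻¹' U1 :=
    hst (Set.mk_mem_prod hx.1 hy.2)
  rw [Set.mem_preimage] at h2
  dsimp only at h2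
  have h3 : x⁻¹ * y = 1 := U1_inter (x⁻¹ * y) hG h2
  exact (inv_mul_eq_one.1 h3)

theorem t_FD : T_FD := by
  classical
  obtain ⟨W, hWo, hW1, hW⟩ := exists_W
  have hcount := count
  obtain ⟨u, hu⟩ := TopologicalSpace.exists_dense_seq GR
  -- the open sets `V n`
  let V : ℕ → Set GR := fun n => {g | (u n)⁻¹ * g ∈ W}
  have hVo : ∀ n, IsOpen (V n) := fun n => hWo.preimage (continuous_const.mul continuous_id)
  have hVcov : ∀ g : GR, ∃ n, g ∈ V n := by
    intro g
    have hopen : IsOpen {x : GR | x⁻¹ * g ∈ W} :=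
      hWo.preimage (continuous_inv.mul continuous_const)
    obtain ⟨y, hy, n, rfl⟩ := hu.exists_mem_open hopen ⟨g, by simpa using hW1⟩ |>.elim
      (fun n hn => (⟨u n, hn, n, rfl⟩ : ∃ y, y ∈ {x : GR | x⁻¹ * g ∈ W} ∧ ∃ n, u n = y))
    exact ⟨n, hy⟩
  have hVinj : ∀ n, ∀ g : GR, ∀ γ γ' : Gam, g * (γ : GR) ∈ V n → g * (γ' : GR) ∈ V n → γ = γ' := by
    intro n g γ γ' h h'
    have h2 := hW _ h _ h' (by
      have : ((u n)⁻¹ * (g * (γ : GR)))⁻¹ * ((u n)⁻¹ * (g * (γ' : GR))) =
          (γ : GR)⁻¹ * (γ' : GR) := by group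
      rw [this]
      exact Gam.mul_mem (Gam.inv_mem γ.2) γ'.2)
    have h3 := mul_left_cancel h2
    exact Subtype.ext (mul_left_cancel h3)
  -- saturations
  let Sa : ℕ → Set GR := fun n => {g | ∃ γ : Gam, g * (γ : GR) ∈ V n}
  have hSao : ∀ n, IsOpen (Sa n) := by
    intro n
    have : Sa n = ⋃ γ : Gam, (fun g : GR => g * (γ : GR)) ⁻¹' (V n) := by
      ext g; simp [Sa]
    rw [this]
    exact isOpen_iUnion (fun γ => (hVo n).preimage (continuous_id.mul continuous_const))
  have hSainv : ∀ n, ∀ g : GR, ∀ γ : Gam, g * (γ : GR) ∈ Sa n ↔ g ∈ Sa n := by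
    intro n g γ
    constructor
    · rintro ⟨δ, hδ⟩
      refine ⟨γ * δ, ?_⟩
      rw [Subgroup.coe_mul, ← mul_assoc]
      exact hδ
    · rintro ⟨δ, hδ⟩
      refine ⟨γ⁻¹ * δ, ?_⟩
      rw [Subgroup.coe_mul, Subgroup.coe_inv, mul_assoc, mul_inv_cancel_left]
      exact hδ
  refine ⟨⋃ n, (V n \ ⋃ k ∈ Finset.range n, Sa k), ?_, ?_⟩
  · refine MeasurableSet.iUnion (fun n => (hVo n).measurableSet.diff ?_)
    exact Finset.measurableSet_biUnion _ (fun k _ => (hSao k).measurableSet)
  · intro g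
    have hex : ∃ n, g ∈ Sa n := by
      obtain ⟨n, hn⟩ := hVcov g
      exact ⟨n, 1, by simpa using hn⟩
    have hn := Nat.find_spec hex
    have hmin : ∀ k < Nat.find hex, g ∉ Sa k := fun k hk => Nat.find_min hex hk
    set n := Nat.find hex with hndef
    -- every `γ` with `gγ ∈ D` satisfies `gγ ∈ V n`
    have key : ∀ γ : Gam, g * (γ : GR) ∈ (⋃ n, (V n \ ⋃ k ∈ Finset.range n, Sa k)) →
        g * (γ : GR) ∈ V n := by
      intro γ hγ
      obtain ⟨m, hm1, hm2⟩ := Set.mem_iUnion.1 hγ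
      have hgm : g ∈ Sa m := ⟨γ, hm1⟩
      have hnm : n ≤ m := by
        by_contra hc
        push Not at hc
        exact hmin m hc hgm
      rcases hnm.lt_or_eq with hlt | heq
      · exfalso
        apply hm2
        rw [Set.mem_iUnion₂]
        exact ⟨n, Finset.mem_range.2 hlt, (hSainv n g γ).2 hn⟩
      · rw [heq]; exact hm1
    obtain ⟨γ, hγ⟩ := hn
    refine ⟨γ, ?_, ?_⟩
    · refine Set.mem_iUnion.2 ⟨n, hγ, ?_⟩
      intro hc
      rw [Set.mem_iUnion₂] at hc
      obtain ⟨k, hk, hk2⟩ := hc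
      exact hmin k (Finset.mem_range.1 hk) ((hSainv k g γ).1 hk2)
    · intro γ' hγ'
      exact hVinj n g γ' γ (key γ' hγ') hγ

end FDm

theorem t_DISC : T_DISC := FDm.t_DISC
theorem t_FD : T_FD := FDm.t_FD

end KF
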