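import Mathlib
import Pool.Agent.H22.KF.Defs
import Pool.Agent.H22.KF.Group
import Pool.Agent.H22.KF.Frames
import Pool.Agent.H22.KF.Targets

/-!
# MP_3fd637_nt : module HAAR
-/

open MeasureTheory Filter Topology
open scoped ENNReal

namespace KF

namespace HAARm

/-- right multiplication by `A` on the rows -/
noncomputable def RM (A : MR) : (Fin 3 → V3) →ₗ[ℝ] (Fin 3 → V3) :=
  LinearMap.pi (fun i => (Matrix.vecMulLinear A).comp (LinearMap.proj i))

theorem RM_apply (A : MR) (x : Fin 3 → V3) (i : Fin 3) : RM A x i = Matrix.vecMul (x i) A := rfl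

theorem det_RM (A : MR) : LinearMap.det (RM A) = A.det ^ 3 := by
  rw [RM, LinearMap.det_pi]
  rw [Finset.prod_const, Finset.card_univ, Fintype.card_fin]
  congr 1
  have : Matrix.vecMulLinear A = Matrix.toLin' A.transpose := by
    ext i j
    simp [Matrix.vecMulLinear, Matrix.toLin'_apply]
  rw [this, LinearMap.det_toLin', Matrix.det_transpose]

/-- transposition as a linear equivalence -/
def TT : (Fin 3 → V3) ≃ₗ[ℝ] (Fin 3 → V3) where
  toFun x := fun i j => x j i
  invFun x := fun i j => x j i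
  map_add' _ _ := rfl
  map_smul' _ _ := rfl
  left_inv _ := rfl
  right_inv _ := rfl

/-- left multiplication by `A` -/
noncomputable def LM (A : MR) : (Fin 3 → V3) →ₗ[ℝ] (Fin 3 → V3) :=
  (TT : (Fin 3 → V3) →ₗ[ℝ] (Fin 3 → V3)) ∘ₗ (RM A.transpose) ∘ₗ
    (TT.symm : (Fin 3 → V3) →ₗ[ℝ] (Fin 3 → V3))

theorem LM_apply (A : MR) (x : Fin 3 → V3) (i j : Fin 3) : LM A x i j = ∑ k, A i k * x k j := by
  have : LM A x i j = Matrix.vecMul (fun k => x k j) A.transpose i := rfl
  rw [this, Matrix.vecMul_transpose]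
  rfl

theorem det_LM (A : MR) : LinearMap.det (LM A) = A.det ^ 3 := by
  rw [LM, LinearMap.det_conj, det_RM, Matrix.det_transpose]

theorem ent_mul_right (g A : GR) : ent (g * A) = RM (A : MR) (ent g) := by
  funext i j
  rfl

theorem ent_mul_left (A g : GR) : ent (A * g) = LM (A : MR) (ent g) := by
  funext i j
  rw [LM_apply]
  rfl

theorem detR_mul (g h : GR) : detR (g * h) = detR g * detR h := by
  unfold detR
  rw [Units.val_mul, Matrix.det_mul]

theorem detR_ne (g : GR) : detR g ≠ 0 :=
  ((Matrix.isUnit_iff_isUnit_det _).1 g.isUnit).ne_zero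

theorem continuous_detR : Continuous detR :=
  Continuous.matrix_det isEmbedding_coe.continuous

theorem measurableEmbedding_ent : MeasurableEmbedding ent := isOpenEmbedding_ent.measurableEmbedding

/-- the base measure -/
noncomputable def lebG : Measure GR := Measure.comap ent (volume : Measure (Fin 3 → V3))

theorem lebG_apply (s : Set GR) : lebG s = volume (ent '' s) :=
  measurableEmbedding_ent.comap_apply _ _

/-- behaviour of the base measure under a homeomorphism of the group which is linear in the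
entries -/
theorem lebG_preimage (T : GR ≃ₜ GR) (L : (Fin 3 → V3) →ₗ[ℝ] (Fin 3 → V3)) (d : ℝ)
    (hL : LinearMap.det L = d) (h : ∀ g, ent (T g) = L (ent g))
    (s : Set GR) : lebG (T '' s) = ENNReal.ofReal |d| * lebG s := by
  rw [lebG_apply, lebG_apply]
  have : ent '' (T '' s) = L '' (ent '' s) := by
    rw [Set.image_image, Set.image_image]
    exact Set.image_congr (fun g _ => h g)
  rw [this, Measure.addHaar_image_linearMap, hL]

theorem haar_map (T : GR ≃ₜ GR) (L : (Fin 3 → V3) →ₗ[ℝ] (Fin 3 → V3)) (A : GR)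
    (hL : LinearMap.det L = detR A ^ 3) (h : ∀ g, ent (T g) = L (ent g))
    (hd : ∀ g, |detR (T g)| = |detR A| * |detR g|) :
    Measure.map T haarG = haarG := by
  have hA : 0 < |detR A| := abs_pos.2 (detR_ne A)
  ext s hs
  rw [Measure.map_apply T.continuous.measurable hs]
  have hmeas : Measurable (fun g : GR => ENNReal.ofReal ((|detR g| ^ 3)⁻¹)) := by
    apply ENNReal.measurable_ofReal.comp
    exact ((continuous_detR.abs.pow 3).measurable).inv
  have hmap : Measure.map T lebG = (ENNReal.ofReal ((|detR A| ^ 3)⁻¹)) • lebG := by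
    ext t ht
    rw [Measure.map_apply T.continuous.measurable ht, Measure.smul_apply, smul_eq_mul]
    have h1 := lebG_preimage T L _ hL h (T ⁻¹' t)
    rw [Set.image_preimage_eq _ T.surjective] at h1
    rw [h1, ← mul_assoc, abs_pow, ← ENNReal.ofReal_mul (by positivity),
      inv_mul_cancel₀ (by positivity), ENNReal.ofReal_one, one_mul]
  have e1 : haarG (T ⁻¹' s) = ∫⁻ g in T ⁻¹' s, ENNReal.ofReal ((|detR g| ^ 3)⁻¹) ∂lebG :=
    withDensity_apply _ (T.continuous.measurable hs)
  have e2 : haarG s = ∫⁻ g in s, ENNReal.ofReal ((|detR g| ^ 3)⁻¹) ∂lebG :=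
    withDensity_apply _ hs
  rw [e1, e2]
  have e3 : ∀ g : GR, ENNReal.ofReal ((|detR g| ^ 3)⁻¹) =
      ENNReal.ofReal (|detR A| ^ 3) * ENNReal.ofReal ((|detR (T g)| ^ 3)⁻¹) := by
    intro g
    rw [← ENNReal.ofReal_mul (by positivity), hd g]
    congr 1
    have := abs_pos.2 (detR_ne g)
    field_simp
  calc ∫⁻ g in T ⁻¹' s, ENNReal.ofReal ((|detR g| ^ 3)⁻¹) ∂lebG
      = ∫⁻ g in T ⁻¹' s, ENNReal.ofReal (|detR A| ^ 3) *
          ENNReal.ofReal ((|detR (T g)| ^ 3)⁻¹) ∂lebG := by
        apply lintegral_congr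
        intro g
        exact e3 g
    _ = ∫⁻ g in s, ENNReal.ofReal (|detR A| ^ 3) *
          ENNReal.ofReal ((|detR g| ^ 3)⁻¹) ∂(Measure.map T lebG) := by
        rw [setLIntegral_map hs (hmeas.const_mul _) T.continuous.measurable]
    _ = ∫⁻ g in s, ENNReal.ofReal ((|detR g| ^ 3)⁻¹) ∂lebG := by
        rw [hmap, Measure.restrict_smul, lintegral_smul_measure, lintegral_const_mul _ hmeas,
          smul_eq_mul, ← mul_assoc, ← ENNReal.ofReal_mul (by positivity),
          inv_mul_cancel₀ (by positivity), ENNReal.ofReal_one, one_mul]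

theorem haar_left : haarG.IsMulLeftInvariant := by
  refine ⟨fun A => ?_⟩
  exact haar_map (Homeomorph.mulLeft A) (LM (A : MR)) A (det_LM _) (fun g => ent_mul_left A g)
    (fun g => by
      have : detR ((Homeomorph.mulLeft A) g) = detR A * detR g := detR_mul A g
      rw [this, abs_mul])

theorem haar_right : haarG.IsMulRightInvariant := by
  refine ⟨fun A => ?_⟩
  exact haar_map (Homeomorph.mulRight A) (RM (A : MR)) A (det_RM _) (fun g => ent_mul_right g A)
    (fun g => by
      have : detR ((Homeomorph.mulRight A) g) = detR g * detR A := detR_mul g A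
      rw [this, abs_mul, mul_comm])

theorem haar_compact : IsFiniteMeasureOnCompacts haarG := by
  refine ⟨fun K hK => ?_⟩
  have hc : Continuous (fun g : GR => (|detR g| ^ 3)⁻¹) :=
    (continuous_detR.abs.pow 3).inv₀ (fun g => pow_ne_zero 3 (abs_pos.2 (detR_ne g)).ne')
  obtain ⟨C, hC⟩ := (hK.image hc).bddAbove
  have e2 : haarG K = ∫⁻ g in K, ENNReal.ofReal ((|detR g| ^ 3)⁻¹) ∂lebG :=
    withDensity_apply _ hK.measurableSet
  rw [e2]
  have hK2 : lebG K < ∞ := by
    rw [lebG_apply]
    exact (hK.image isOpenEmbedding_ent.continuous).measure_lt_top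
  calc ∫⁻ g in K, ENNReal.ofReal ((|detR g| ^ 3)⁻¹) ∂lebG
      ≤ ∫⁻ _ in K, ENNReal.ofReal C ∂lebG := by
        apply setLIntegral_mono measurable_const
        intro g hg
        exact ENNReal.ofReal_le_ofReal (hC ⟨g, hg, rfl⟩)
    _ = ENNReal.ofReal C * lebG K := by
        rw [setLIntegral_const]
    _ < ∞ := ENNReal.mul_lt_top ENNReal.ofReal_lt_top hK2

theorem haar_open : haarG.IsOpenPosMeasure := by
  refine ⟨fun U hU hne h0 => ?_⟩
  have e2 : haarG U = ∫⁻ g in U, ENNReal.ofReal ((|detR g| ^ 3)⁻¹) ∂lebG :=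
    withDensity_apply _ hU.measurableSet
  have hmeas : Measurable (fun g : GR => ENNReal.ofReal ((|detR g| ^ 3)⁻¹)) := by
    apply ENNReal.measurable_ofReal.comp
    exact ((continuous_detR.abs.pow 3).measurable).inv
  rw [e2] at h0
  have hpos : 0 < lebG U := by
    rw [lebG_apply]
    exact (isOpenEmbedding_ent.isOpenMap U hU).measure_pos _ (hne.image _)
  have h1 := (lintegral_eq_zero_iff hmeas).1 h0
  have h2 : ∀ᵐ g ∂(lebG.restrict U), False := by
    filter_upwards [h1] with g hg
    have h3 : 0 < (|detR g| ^ 3)⁻¹ := by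
      have := abs_pos.2 (detR_ne g)
      positivity
    have h4 : ENNReal.ofReal ((|detR g| ^ 3)⁻¹) = 0 := hg
    rw [ENNReal.ofReal_eq_zero] at h4
    linarith
  rw [ae_iff] at h2
  simp only [not_false_eq_true, Set.ofPred_true] at h2
  have h3 : (lebG.restrict U) Set.univ = lebG U := Measure.restrict_apply_univ U
  have h4 : (lebG.restrict U) Set.univ = 0 := h2
  rw [h3] at h4
  exact hpos.ne' h4

theorem haar_isHaar : haarG.IsHaarMeasure := by
  have := haar_left
  have := haar_compact
  have := haar_open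
  constructor

end HAARm

theorem t_HAAR : T_HAAR := ⟨HAARm.haar_left, HAARm.haar_right, HAARm.haar_isHaar⟩

end KF
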