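import Mathlib
import Pool.Agent.H22.KF.Defs
import Pool.Agent.H22.KF.Group
import Pool.Agent.H22.KF.Frames
import Pool.Agent.H22.KF.Targets

/-!
# MP_3fd637_nt : module FACE
-/

open MeasureTheory Filter Topology
open scoped ENNReal

namespace KF

namespace FACEm

section basic

variable (r : Fin 3 → V3) (hr : Matrix.det (Matrix.of r) ≠ 0)

include hr

theorem coef_vecMul (c : V3) : coef r (Matrix.vecMul c (Matrix.of r)) = c := by
  unfold coef
  rw [Matrix.vecMul_vecMul, Matrix.mul_nonsing_inv _ (isUnit_iff_ne_zero.2 hr),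
    Matrix.vecMul_one]

theorem vecMul_coef (x : V3) : Matrix.vecMul (coef r x) (Matrix.of r) = x := by
  unfold coef
  rw [Matrix.vecMul_vecMul, Matrix.nonsing_inv_mul _ (isUnit_iff_ne_zero.2 hr),
    Matrix.vecMul_one]

omit hr in
theorem vecMul_eq_sum (c : V3) : Matrix.vecMul c (Matrix.of r) = ∑ i, c i • r i := by
  funext j
  simp [Matrix.vecMul, dotProduct, Finset.sum_apply]

theorem sum_coef (x : V3) : ∑ i, coef r x i • r i = x := by
  rw [← vecMul_eq_sum, vecMul_coef r hr]

theorem coef_sum (c : V3) : coef r (∑ i, c i • r i) = c := by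
  rw [← vecMul_eq_sum, coef_vecMul r hr]

omit hr in
theorem coef_smul (a : ℝ) (x : V3) (i : Fin 3) : coef r (a • x) i = a * coef r x i := by
  unfold coef
  rw [Matrix.smul_vecMul]; rfl

omit hr in
theorem coef_add (x y : V3) (i : Fin 3) : coef r (x + y) i = coef r x i + coef r y i := by
  unfold coef
  rw [Matrix.add_vecMul]; rfl

omit hr in
theorem coef_zero (i : Fin 3) : coef r 0 i = 0 := by
  unfold coef
  rw [Matrix.zero_vecMul]; rfl

omit hr in
theorem unit_sq (e : ℤˣ) : (((e : ℤ) : ℝ)) * ((e : ℤ) : ℝ) = 1 := by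
  rcases Int.units_eq_one_or e with h | h <;> simp [h]

theorem mem_cone_iff (ε : Fin 3 → ℤˣ) (x : V3) :
    x ∈ coneOf (n := 2) r ε ↔ ∀ i, 0 ≤ coef r x i * ((ε i : ℤ) : ℝ) := by
  constructor
  · rintro ⟨t, ht, hx⟩ i
    have h1 : coef r x = fun i => t i * ((ε i : ℤ) : ℝ) := by
      rw [hx]
      exact coef_sum r hr (fun i => t i * ((ε i : ℤ) : ℝ))
    rw [h1]
    show 0 ≤ t i * ((ε i : ℤ) : ℝ) * ((ε i : ℤ) : ℝ)
    rw [mul_assoc, unit_sq, mul_one]
    exact ht i
  · intro h
    refine ⟨fun i => coef r x i * ((ε i : ℤ) : ℝ), h, ?_⟩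
    have h2 : ∀ i, coef r x i * ((ε i : ℤ) : ℝ) * ((ε i : ℤ) : ℝ) = coef r x i := by
      intro i; rw [mul_assoc, unit_sq, mul_one]
    have : (∑ i : Fin (2 + 1), (coef r x i * ((ε i : ℤ) : ℝ) * ((ε i : ℤ) : ℝ)) • r i) =
        ∑ i : Fin 3, coef r x i • r i := by
      apply Finset.sum_congr rfl
      intro i _
      rw [h2]
    rw [this, sum_coef r hr]

theorem convex_cone (ε : Fin 3 → ℤˣ) : Convex ℝ (coneOf (n := 2) r ε) := by
  intro x hx y hy a b ha hb _
  rw [mem_cone_iff r hr] at hx hy ⊢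
  intro i
  rw [coef_add, coef_smul, coef_smul]
  have h1 := mul_nonneg ha (hx i)
  have h2 := mul_nonneg hb (hy i)
  nlinarith

theorem smul_mem_cone (ε : Fin 3 → ℤˣ) {x : V3} (hx : x ∈ coneOf (n := 2) r ε) {a : ℝ}
    (ha : 0 ≤ a) : a • x ∈ coneOf (n := 2) r ε := by
  rw [mem_cone_iff r hr] at hx ⊢
  intro i
  rw [coef_smul, mul_assoc]
  exact mul_nonneg ha (hx i)

theorem klein_subset_cone (ε : Fin 3 → ℤˣ) : klein (n := 2) r ε ⊆ coneOf (n := 2) r ε :=
  convexHull_min (fun _ hx => hx.1) (convex_cone r hr ε)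

omit hr in
theorem mem_klein (ε : Fin 3 → ℤˣ) {x : V3} (h1 : x ∈ coneOf (n := 2) r ε) (h2 : x ≠ 0)
    (h3 : IsIntPt (n := 2) x) : x ∈ klein (n := 2) r ε :=
  subset_convexHull _ _ ⟨h1, h2, h3⟩

/-- the last coordinate in terms of the coefficients -/
theorem last_eq (x : V3) : x 2 = ∑ i, coef r x i * r i 2 := by
  conv_lhs => rw [← sum_coef r hr x]
  simp [Finset.sum_apply]

end basic

theorem pt_int (x y : ℤ) : IsIntPt (n := 2) ![(x : ℝ), (y : ℝ), 1] := by
  intro i
  fin_cases i
  · exact ⟨x, rfl⟩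
  · exact ⟨y, rfl⟩
  · exact ⟨1, by simp⟩

theorem pt_ne (x y : ℝ) : (![x, y, 1] : V3) ≠ 0 := by
  intro h
  have := congrFun h 2
  simp at this

theorem mem_poly {S : Finset (ℤ × ℤ)} {s : ℤ × ℤ} (hs : s ∈ S) :
    (![(s.1 : ℝ), (s.2 : ℝ), 1] : Vec 2) ∈ poly S :=
  subset_convexHull _ _ ⟨s, hs, rfl⟩

theorem poly_last {S : Finset (ℤ × ℤ)} : poly S ⊆ {x : Vec 2 | x 2 = 1} := by
  apply convexHull_min
  · rintro _ ⟨s, _, rfl⟩
    rfl
  · intro x hx y hy a b _ _ hab
    have hx' : x 2 = 1 := hx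
    have hy' : y 2 = 1 := hy
    show (a • x + b • y) 2 = 1
    rw [Pi.add_apply, Pi.smul_apply, Pi.smul_apply, smul_eq_mul, smul_eq_mul, hx', hy']
    linarith

/-- an integer point with last coordinate `1` -/
theorem int_last {x : V3} (hx : IsIntPt (n := 2) x) (h2 : x 2 = 1) :
    ∃ a b : ℤ, x = ![(a : ℝ), (b : ℝ), 1] := by
  obtain ⟨a, ha⟩ := hx 0
  obtain ⟨b, hb⟩ := hx 1
  refine ⟨a, b, ?_⟩
  funext i
  fin_cases i
  · exact ha
  · exact hb
  · exact h2

/-- the sign of a nonzero real number as a unit -/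
noncomputable def sg (x : ℝ) : ℤˣ := if 0 < x then 1 else -1

theorem sg_mul {x : ℝ} (hx : x ≠ 0) : 0 < ((sg x : ℤ) : ℝ) * x := by
  unfold sg
  split_ifs with h
  · simpa using h
  · have : x < 0 := lt_of_le_of_ne (not_lt.1 h) hx
    simpa using this

theorem nonneg_iff_of_pos {c e z : ℝ} (he : e * e = 1) (hz : 0 < e * z) :
    0 ≤ c * z ↔ 0 ≤ c * e := by
  have h1 : c * z = (c * e) * (e * z) := by
    calc c * z = c * z * 1 := by ring
      _ = c * z * (e * e) := by rw [he]
      _ = _ := by ring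
  rw [h1]
  exact mul_nonneg_iff_of_pos_right hz

theorem backward (S : Finset (ℤ × ℤ)) (r : Fin 3 → V3) (hS : Dim2 S)
    (hr : Matrix.det (Matrix.of r) ≠ 0) (h : UF S r) : IsFace (n := 2) r (poly S) := by
  obtain ⟨h0, hU⟩ := h
  let ε : Fin 3 → ℤˣ := fun i => sg (r i 2)
  have hε : ∀ i, 0 < ((ε i : ℤ) : ℝ) * r i 2 := fun i => sg_mul (h0 i)
  obtain ⟨a0, ha0, -⟩ := hS
  -- cone membership at height one
  have hcone1 : ∀ x y : ℤ, (![(x : ℝ), (y : ℝ), 1] : V3) ∈ coneOf (n := 2) r ε ↔
      (![(x : ℝ), (y : ℝ), 1] : V3) ∈ poly S := by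
    intro x y
    rw [mem_cone_iff r hr, ← hU x y]
    exact forall_congr' (fun i => (nonneg_iff_of_pos (unit_sq _) (hε i)).symm)
  -- all generators have last coordinate at least one
  have hgen : ∀ x : V3, x ∈ coneOf (n := 2) r ε → x ≠ 0 → IsIntPt (n := 2) x → 1 ≤ x 2 := by
    intro x hx hx0 hxi
    rw [mem_cone_iff r hr] at hx
    have hnn : ∀ i, 0 ≤ coef r x i * r i 2 := fun i =>
      (nonneg_iff_of_pos (unit_sq _) (hε i)).2 (hx i)
    have hpos : 0 < x 2 := by
      rw [last_eq r hr x]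
      rcases (Finset.sum_nonneg (fun i _ => hnn i)).lt_or_eq with hl | hl
      · exact hl
      · exfalso
        apply hx0
        rw [← sum_coef r hr x]
        apply Finset.sum_eq_zero
        intro i hi
        have h1 := (Finset.sum_eq_zero_iff_of_nonneg (fun i _ => hnn i)).1 hl.symm i hi
        rcases mul_eq_zero.1 h1 with h2 | h2
        · rw [h2, zero_smul]
        · exact absurd h2 (h0 i)
    obtain ⟨k, hk⟩ := hxi 2
    have hk' : x 2 = (k : ℝ) := hk
    rw [hk'] at hpos ⊢
    have : 0 < k := by exact_mod_cast hpos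
    exact_mod_cast this
  -- the convex set containing `klein`
  have hsub : klein (n := 2) r ε ⊆ {x : V3 | 1 < x 2} ∪ poly S := by
    apply convexHull_min
    · rintro x ⟨hx, hx0, hxi⟩
      rcases (hgen x hx hx0 hxi).lt_or_eq with hl | hl
      · exact Or.inl hl
      · right
        obtain ⟨a, b, hab⟩ := int_last hxi hl.symm
        rw [hab]
        rw [hab] at hx
        exact (hcone1 a b).1 hx
    · intro x hx y hy a b ha hb hab
      have hx1 : 1 ≤ x 2 := by
        rcases hx with hx | hx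
        · exact le_of_lt hx
        · exact (poly_last hx).symm.le
      have hy1 : 1 ≤ y 2 := by
        rcases hy with hy | hy
        · exact le_of_lt hy
        · exact (poly_last hy).symm.le
      rcases ha.lt_or_eq with ha' | ha'
      · rcases hb.lt_or_eq with hb' | hb'
        · rcases hx with hx | hx
          · left
            have hx' : 1 < x 2 := hx
            show 1 < (a • x + b • y) 2
            rw [Pi.add_apply, Pi.smul_apply, Pi.smul_apply, smul_eq_mul, smul_eq_mul]
            nlinarith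
          · rcases hy with hy | hy
            · left
              have hy' : 1 < y 2 := hy
              show 1 < (a • x + b • y) 2
              rw [Pi.add_apply, Pi.smul_apply, Pi.smul_apply, smul_eq_mul, smul_eq_mul]
              nlinarith
            · right
              exact (convex_convexHull ℝ _) hx hy ha hb hab
        · subst hb'
          have : a = 1 := by linarith
          subst this
          rw [one_smul, zero_smul, add_zero]
          exact hx
      · subst ha'
        have : b = 1 := by linarith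
        subst this
        rw [one_smul, zero_smul, zero_add]
        exact hy
  have hpk : poly S ⊆ klein (n := 2) r ε := by
    apply convexHull_mono
    rintro _ ⟨s, hs, rfl⟩
    exact ⟨(hcone1 s.1 s.2).2 (mem_poly hs), pt_ne _ _, pt_int _ _⟩
  have hk1 : ∀ x ∈ klein (n := 2) r ε, 1 ≤ x 2 := by
    intro x hx
    rcases hsub hx with h | h
    · exact le_of_lt h
    · exact (poly_last h).symm.le
  refine ⟨ε, ⟨_, mem_poly ha0⟩, ?_, ?_⟩
  · intro _
    refine ⟨-(ContinuousLinearMap.proj (R := ℝ) (φ := fun _ : Fin 3 => ℝ) 2), ?_⟩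
    ext x
    constructor
    · intro hx
      refine ⟨hpk hx, fun y hy => ?_⟩
      show -(y 2) ≤ -(x 2)
      have h1 := hk1 y hy
      have h2 : x 2 = 1 := poly_last hx
      linarith
    · rintro ⟨hx, hmax⟩
      have h1 : -((![(a0.1 : ℝ), (a0.2 : ℝ), 1] : V3) 2) ≤ -(x 2) := hmax _ (hpk (mem_poly ha0))
      have h2 : (![(a0.1 : ℝ), (a0.2 : ℝ), 1] : V3) 2 = 1 := rfl
      rcases hsub hx with h | h
      · have : 1 < x 2 := h
        linarith
      · exact h
  · intro heq
    have h1 : (2 : ℝ) • (![(a0.1 : ℝ), (a0.2 : ℝ), 1] : V3) ∈ klein (n := 2) r ε := by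
      apply mem_klein
      · exact smul_mem_cone r hr ε ((hcone1 a0.1 a0.2).2 (mem_poly ha0)) (by norm_num)
      · exact smul_ne_zero (by norm_num) (pt_ne _ _)
      · intro i
        obtain ⟨k, hk⟩ := pt_int a0.1 a0.2 i
        refine ⟨2 * k, ?_⟩
        rw [Pi.smul_apply, hk]
        push_cast
        simp
    rw [← heq] at h1
    have h2 := poly_last h1
    have h3 : ((2 : ℝ) • (![(a0.1 : ℝ), (a0.2 : ℝ), 1] : V3)) 2 = 2 := by simp
    have h4 : ((2 : ℝ) • (![(a0.1 : ℝ), (a0.2 : ℝ), 1] : V3)) 2 = 1 := h2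
    rw [h3] at h4
    norm_num at h4

/-- integer points in an open cone -/
theorem exists_int_pt (O : Set V3) (hO : IsOpen O) (hne : O.Nonempty)
    (hc : ∀ x ∈ O, ∀ a : ℝ, 0 < a → a • x ∈ O) : ∃ z : VZ, cst z ∈ O := by
  obtain ⟨p, hp⟩ := hne
  have hlim : Tendsto (fun M : ℕ => (fun j => ((⌊(M : ℝ) * p j⌋ : ℤ) : ℝ) / (M : ℝ) : V3)) atTop
      (𝓝 p) := by
    rw [tendsto_pi_nhds]
    intro j
    have h1 : Tendsto (fun M : ℕ => p j - 1 / (M : ℝ)) atTop (𝓝 (p j)) := by
      have : Tendsto (fun M : ℕ => p j - 1 / (M : ℝ)) atTop (𝓝 (p j - 0)) :=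
        tendsto_const_nhds.sub tendsto_one_div_atTop_nhds_zero_nat
      rwa [sub_zero] at this
    refine tendsto_of_tendsto_of_tendsto_of_le_of_le' h1 tendsto_const_nhds ?_ ?_
    · filter_upwards [eventually_gt_atTop 0] with M hM
      have hM' : (0 : ℝ) < M := by exact_mod_cast hM
      rw [le_div_iff₀ hM', sub_mul, one_div, inv_mul_cancel₀ hM'.ne']
      have := Int.lt_floor_add_one ((M : ℝ) * p j)
      linarith
    · filter_upwards [eventually_gt_atTop 0] with M hM
      have hM' : (0 : ℝ) < M := by exact_mod_cast hM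
      rw [div_le_iff₀ hM']
      have := Int.floor_le ((M : ℝ) * p j)
      linarith
  obtain ⟨M, hM0, hM⟩ := ((eventually_gt_atTop 0).and (hlim.eventually (hO.mem_nhds hp))).exists
  refine ⟨fun j => ⌊(M : ℝ) * p j⌋, ?_⟩
  have hM' : (0 : ℝ) < M := by exact_mod_cast hM0
  have := hc _ hM M hM'
  convert this using 1
  funext j
  simp only [cst, Pi.smul_apply, smul_eq_mul]
  field_simp

theorem continuous_coef (r : Fin 3 → V3) (i : Fin 3) : Continuous (fun x => coef r x i) := by
  unfold coef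
  exact (continuous_apply i).comp (Continuous.matrix_vecMul continuous_id continuous_const)

theorem forward (S : Finset (ℤ × ℤ)) (r : Fin 3 → V3) (hS : Dim2 S)
    (hr : Matrix.det (Matrix.of r) ≠ 0) (hint : ∀ i, r i 2 ≠ 0 ∨ ∃ z : VZ, r i = cst z)
    (h : IsFace (n := 2) r (poly S)) : UF S r := by
  obtain ⟨ε, hne, hexp, hneq⟩ := h
  obtain ⟨l, hl⟩ := hexp hne
  obtain ⟨a, ha, b, hb, c, hc, hdet⟩ := hS
  have hpk : poly S ⊆ klein (n := 2) r ε := by
    rw [hl]; exact fun x hx => hx.1
  have hpc : poly S ⊆ coneOf (n := 2) r ε := hpk.trans (klein_subset_cone r hr ε)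
  have hmax : ∀ x ∈ poly S, ∀ y ∈ klein (n := 2) r ε, l y ≤ l x := by
    intro x hx
    rw [hl] at hx
    exact hx.2
  -- the functional
  set e0 : V3 := Pi.single 0 1 with he0
  set e1 : V3 := Pi.single 1 1 with he1
  set e2 : V3 := Pi.single 2 1 with he2
  have hdecomp : ∀ x : V3, l x = x 0 * l e0 + x 1 * l e1 + x 2 * l e2 := by
    intro x
    have : x = x 0 • e0 + x 1 • e1 + x 2 • e2 := by
      funext j
      fin_cases j <;> simp [he0, he1, he2]
    conv_lhs => rw [this]
    rw [map_add, map_add, map_smul, map_smul, map_smul]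
    rfl
  have hA := mem_poly ha
  have hB := mem_poly hb
  have hC := mem_poly hc
  have hAB : l (![(a.1 : ℝ), (a.2 : ℝ), 1] : V3) = l (![(b.1 : ℝ), (b.2 : ℝ), 1] : V3) :=
    le_antisymm (hmax _ hB _ (hpk hA)) (hmax _ hA _ (hpk hB))
  have hAC : l (![(a.1 : ℝ), (a.2 : ℝ), 1] : V3) = l (![(c.1 : ℝ), (c.2 : ℝ), 1] : V3) :=
    le_antisymm (hmax _ hC _ (hpk hA)) (hmax _ hA _ (hpk hC))
  rw [hdecomp, hdecomp (![(b.1 : ℝ), (b.2 : ℝ), 1] : V3)] at hAB
  rw [hdecomp, hdecomp (![(c.1 : ℝ), (c.2 : ℝ), 1] : V3)] at hAC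
  simp only [Matrix.cons_val_zero, Matrix.cons_val_one, Matrix.cons_val] at hAB hAC
  have hD : (((b.1 - a.1) * (c.2 - a.2) - (b.2 - a.2) * (c.1 - a.1) : ℤ) : ℝ) ≠ 0 := by
    exact_mod_cast hdet
  push_cast at hD
  have hl0 : l e0 = 0 := by
    have : (((b.1 : ℝ) - a.1) * (c.2 - a.2) - (b.2 - a.2) * (c.1 - a.1)) * l e0 = 0 := by
      linear_combination (b.2 - a.2 : ℝ) * hAC - (c.2 - a.2 : ℝ) * hAB
    exact (mul_eq_zero.1 this).resolve_left hD
  have hl1 : l e1 = 0 := by
    have : (((b.1 : ℝ) - a.1) * (c.2 - a.2) - (b.2 - a.2) * (c.1 - a.1)) * l e1 = 0 := by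
      linear_combination (c.1 - a.1 : ℝ) * hAB - (b.1 - a.1 : ℝ) * hAC
    exact (mul_eq_zero.1 this).resolve_left hD
  set β := l e2 with hβ
  have hlb : ∀ x : V3, l x = x 2 * β := by
    intro x
    rw [hdecomp, hl0, hl1]; ring
  -- `2 (a, 1)` is in `klein`
  have h2A : (2 : ℝ) • (![(a.1 : ℝ), (a.2 : ℝ), 1] : V3) ∈ klein (n := 2) r ε := by
    apply mem_klein
    · exact smul_mem_cone r hr ε (hpc hA) (by norm_num)
    · exact smul_ne_zero (by norm_num) (pt_ne _ _)
    · intro i
      obtain ⟨k, hk⟩ := pt_int a.1 a.2 i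
      refine ⟨2 * k, ?_⟩
      rw [Pi.smul_apply, hk]
      push_cast
      simp
  have hβle : β ≤ 0 := by
    have := hmax _ hA _ h2A
    rw [hlb, hlb] at this
    simp only [Pi.smul_apply, smul_eq_mul, Matrix.cons_val] at this
    linarith
  have hβne : β ≠ 0 := by
    intro h0
    apply hneq
    rw [hl]
    ext x
    constructor
    · exact fun hx => hx.1
    · intro hx
      refine ⟨hx, fun y _ => ?_⟩
      rw [hlb, hlb, h0]
      simp
  have hβneg : β < 0 := lt_of_le_of_ne hβle hβne
  have hz1 : ∀ y ∈ klein (n := 2) r ε, 1 ≤ y 2 := by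
    intro y hy
    have := hmax _ hA _ hy
    rw [hlb, hlb] at this
    simp only [Matrix.cons_val] at this
    nlinarith
  have hz2 : ∀ y ∈ klein (n := 2) r ε, y 2 = 1 → y ∈ poly S := by
    intro y hy hy2
    rw [hl]
    refine ⟨hy, fun w hw => ?_⟩
    rw [hlb, hlb, hy2]
    have := hz1 w hw
    nlinarith
  have hsgn : ∀ i, 0 < ((ε i : ℤ) : ℝ) * r i 2 := by
    intro i
    -- the generator `ε i • r i` of the cone
    have hcoef : ∀ j, coef r (r i) j = (Pi.single i 1 : V3) j := by
      intro j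
      have := congrFun (coef_sum r hr (Pi.single i 1)) j
      rw [← this]
      congr 1
      simp [Pi.single_apply]
    rcases lt_trichotomy (((ε i : ℤ) : ℝ) * r i 2) 0 with hlt | heq | hgt
    · exfalso
      -- an open cone
      let O : Set V3 := {x | (∀ j, 0 < coef r x j * ((ε j : ℤ) : ℝ)) ∧ x 2 < 0}
      have hOo : IsOpen O := by
        have h1 : IsOpen {x : V3 | ∀ j, 0 < coef r x j * ((ε j : ℤ) : ℝ)} := by
          have : {x : V3 | ∀ j, 0 < coef r x j * ((ε j : ℤ) : ℝ)}
              = ⋂ j, {x : V3 | 0 < coef r x j * ((ε j : ℤ) : ℝ)} := by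
            ext x; simp
          rw [this]
          refine isOpen_iInter_of_finite (fun j => ?_)
          exact isOpen_lt continuous_const ((continuous_coef r j).mul continuous_const)
        exact h1.inter (isOpen_lt (continuous_apply 2) continuous_const)
      have hOc : ∀ x ∈ O, ∀ t : ℝ, 0 < t → t • x ∈ O := by
        rintro x ⟨hx1, hx2⟩ t ht
        refine ⟨fun j => ?_, ?_⟩
        · rw [coef_smul, mul_assoc]
          exact mul_pos ht (hx1 j)
        · show t * x 2 < 0
          exact mul_neg_of_pos_of_neg ht hx2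
      have hOne : O.Nonempty := by
        -- `p = N ε_i r_i + ∑_j ε_j r_j`
        set q : V3 := ∑ j, ((ε j : ℤ) : ℝ) • r j with hq
        obtain ⟨N, hN⟩ := exists_nat_gt (q 2 / (-(((ε i : ℤ) : ℝ) * r i 2)))
        have hN' : q 2 < N * (-(((ε i : ℤ) : ℝ) * r i 2)) := by
          rwa [div_lt_iff₀ (by linarith)] at hN
        refine ⟨((N : ℝ) * ((ε i : ℤ) : ℝ)) • r i + q, fun j => ?_, ?_⟩
        · rw [coef_add, coef_smul, hcoef j]
          have hqj : coef r q j = ((ε j : ℤ) : ℝ) := by
            rw [hq]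
            exact congrFun (coef_sum r hr (fun j => ((ε j : ℤ) : ℝ))) j
          rw [hqj, add_mul, unit_sq]
          by_cases hij : j = i
          · subst hij
            rw [Pi.single_eq_same, mul_one, mul_assoc, unit_sq]
            have : (0 : ℝ) ≤ N := Nat.cast_nonneg N
            linarith
          · rw [Pi.single_eq_of_ne hij]
            simp
        · show (((N : ℝ) * ((ε i : ℤ) : ℝ)) • r i + q) 2 < 0
          rw [Pi.add_apply, Pi.smul_apply, smul_eq_mul]
          nlinarith
      obtain ⟨z, hz⟩ := exists_int_pt O hOo hOne hOc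
      have hz2' : (cst z) 2 < 0 := hz.2
      have hzk : cst z ∈ klein (n := 2) r ε := by
        apply mem_klein
        · rw [mem_cone_iff r hr]
          exact fun j => (hz.1 j).le
        · intro h0
          rw [h0] at hz2'
          simp at hz2'
        · exact fun j => ⟨z j, rfl⟩
      have := hz1 _ hzk
      linarith
    · exfalso
      have hε0 : ((ε i : ℤ) : ℝ) ≠ 0 := by
        intro h0
        have := unit_sq (ε i)
        rw [h0] at this
        simp at this
      have hri : r i 2 = 0 := (mul_eq_zero.1 heq).resolve_left hε0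
      rcases hint i with h1 | ⟨z, hz⟩
      · exact h1 hri
      · have hrk : ((ε i : ℤ) : ℝ) • r i ∈ klein (n := 2) r ε := by
          apply mem_klein
          · rw [mem_cone_iff r hr]
            intro j
            rw [coef_smul, hcoef j]
            by_cases hij : j = i
            · subst hij
              rw [Pi.single_eq_same, mul_one, unit_sq]
              norm_num
            · rw [Pi.single_eq_of_ne hij]
              simp
          · refine smul_ne_zero hε0 ?_
            intro h0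
            have := hcoef i
            rw [h0, coef_zero, Pi.single_eq_same] at this
            norm_num at this
          · intro j
            refine ⟨(ε i : ℤ) * z j, ?_⟩
            rw [hz]
            simp [cst]
        have := hz1 _ hrk
        rw [Pi.smul_apply, smul_eq_mul, heq] at this
        norm_num at this
    · exact hgt
  refine ⟨fun i h0 => ?_, fun x y => ?_⟩
  · have := hsgn i
    rw [h0] at this
    simp at this
  · have h1 : (∀ i, 0 ≤ coef r ![(x : ℝ), (y : ℝ), 1] i * r i 2) ↔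
        (![(x : ℝ), (y : ℝ), 1] : V3) ∈ coneOf (n := 2) r ε := by
      rw [mem_cone_iff r hr]
      exact forall_congr' (fun i => nonneg_iff_of_pos (unit_sq _) (hsgn i))
    rw [h1]
    constructor
    · intro hxc
      exact hz2 _ (mem_klein r ε hxc (pt_ne _ _) (pt_int _ _)) rfl
    · exact fun hx => hpc hx

end FACEm

theorem t_FACE : T_FACE := fun S r hS hr hint =>
  ⟨FACEm.forward S r hS hr hint, FACEm.backward S r hS hr⟩

end KF
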