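import Mathlib
import Pool.Agent.H22.KF.Defs
import Pool.Agent.H22.KF.Group
import Pool.Agent.H22.KF.Frames
import Pool.Agent.H22.KF.Targets
import Pool.Agent.H62.KF.HAAR
import Pool.Agent.H62.KF.FACE

/-!
# MP_3fd637_nt : module WM
-/

open MeasureTheory Filter Topology
open scoped ENNReal

namespace KF

namespace WMm

open FACEm HAARm

theorem coef_ent (g : GR) (p : V3) (i : Fin 3) :
    coef (ent g) p i = Matrix.vecMul p ((g⁻¹ : GR) : MR) i := by
  unfold coef
  rw [Matrix.coe_units_inv]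
  rfl

theorem continuous_coefG (p : V3) (i : Fin 3) : Continuous (fun g : GR => coef (ent g) p i) := by
  have : (fun g : GR => coef (ent g) p i) =
      fun g : GR => Matrix.vecMul p ((g⁻¹ : GR) : MR) i := by
    funext g; exact coef_ent g p i
  rw [this]
  have h1 : Continuous (fun g : GR => ((g⁻¹ : GR) : MR)) :=
    isEmbedding_coe.continuous.comp continuous_inv
  exact (continuous_apply i).comp (Continuous.matrix_vecMul continuous_const h1)

theorem continuous_entry (i j : Fin 3) : Continuous (fun g : GR => ent g i j) :=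
  (continuous_apply_apply i j).comp isOpenEmbedding_ent.continuous

theorem continuous_nrm : Continuous nrm := by
  unfold nrm
  refine Real.continuous_sqrt.comp ?_
  exact continuous_finsetSum _ (fun i _ => (continuous_apply i).pow 2)

theorem continuous_nrmG (i : Fin 3) : Continuous (fun g : GR => nrm (ent g i)) :=
  continuous_nrm.comp ((continuous_apply i).comp isOpenEmbedding_ent.continuous)

/-- the sign condition of an integer point -/
def PC (g : GR) (p : V3) : Prop := ∀ i, 0 ≤ coef (ent g) p i * ent g i 2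

theorem measurable_PC (p : V3) : MeasurableSet {g : GR | PC g p} := by
  have : {g : GR | PC g p} = ⋂ i, {g : GR | 0 ≤ coef (ent g) p i * ent g i 2} := by
    ext g; simp [PC]
  rw [this]
  refine MeasurableSet.iInter (fun i => ?_)
  exact (isClosed_le continuous_const
    ((continuous_coefG p i).mul (continuous_entry i 2))).measurableSet

theorem measurable_UF (S : Finset (ℤ × ℤ)) : MeasurableSet {g : GR | UF S (ent g)} := by
  have h1 : MeasurableSet {g : GR | ∀ i, ent g i 2 ≠ 0} := by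
    have : {g : GR | ∀ i, ent g i 2 ≠ 0} = ⋂ i, {g : GR | ent g i 2 ≠ 0} := by
      ext g; simp
    rw [this]
    exact MeasurableSet.iInter (fun i =>
      (isOpen_ne_fun (continuous_entry i 2) continuous_const).measurableSet)
  have h2 : ∀ x y : ℤ, MeasurableSet {g : GR | PC g ![(x : ℝ), (y : ℝ), 1] ↔
      (![(x : ℝ), (y : ℝ), 1] : V3) ∈ poly S} := by
    intro x y
    by_cases hp : (![(x : ℝ), (y : ℝ), 1] : V3) ∈ poly S
    · have : {g : GR | PC g ![(x : ℝ), (y : ℝ), 1] ↔
          (![(x : ℝ), (y : ℝ), 1] : V3) ∈ poly S} = {g : GR | PC g ![(x : ℝ), (y : ℝ), 1]} := by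
        ext g
        simp only [Set.mem_ofPred_eq]
        exact ⟨fun h => h.2 hp, fun h => ⟨fun _ => hp, fun _ => h⟩⟩
      rw [this]
      exact measurable_PC _
    · have : {g : GR | PC g ![(x : ℝ), (y : ℝ), 1] ↔
          (![(x : ℝ), (y : ℝ), 1] : V3) ∈ poly S} = {g : GR | PC g ![(x : ℝ), (y : ℝ), 1]}ᶜ := by
        ext g
        simp only [Set.mem_ofPred_eq, Set.mem_compl_iff]
        exact ⟨fun h h' => hp (h.1 h'), fun h => ⟨fun h' => absurd h' h, fun h' => absurd h' hp⟩⟩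
      rw [this]
      exact (measurable_PC _).compl
  have h3 : {g : GR | UF S (ent g)} = {g : GR | ∀ i, ent g i 2 ≠ 0} ∩
      ⋂ x : ℤ, ⋂ y : ℤ, {g : GR | PC g ![(x : ℝ), (y : ℝ), 1] ↔
        (![(x : ℝ), (y : ℝ), 1] : V3) ∈ poly S} := by
    ext g
    simp only [Set.mem_inter_iff, Set.mem_iInter, Set.mem_ofPred_eq]
    exact Iff.rfl
  rw [h3]
  exact h1.inter (MeasurableSet.iInter (fun x => MeasurableSet.iInter (fun y => h2 x y)))

theorem measurable_WS (S : Finset (ℤ × ℤ)) : MeasurableSet (WS S) := by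
  have h2 : MeasurableSet {g : GR | ∀ i, 1 ≤ nrm (ent g i) ∧ nrm (ent g i) < Real.exp 1} := by
    have : {g : GR | ∀ i, 1 ≤ nrm (ent g i) ∧ nrm (ent g i) < Real.exp 1} =
        ⋂ i, ({g : GR | 1 ≤ nrm (ent g i)} ∩ {g : GR | nrm (ent g i) < Real.exp 1}) := by
      ext g; simp
    rw [this]
    exact MeasurableSet.iInter (fun i =>
      ((isClosed_le continuous_const (continuous_nrmG i)).measurableSet).inter
      (isOpen_lt (continuous_nrmG i) continuous_const).measurableSet)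
  exact (measurable_UF S).inter h2

/-! ### null sets -/

theorem lebG_null_of {s : Set GR} {A : Set (Fin 3 → V3)} (h : ∀ g ∈ s, ent g ∈ A)
    (hA : volume A = 0) : haarG s = 0 := by
  have h1 : lebG s = 0 := by
    rw [lebG_apply]
    refine measure_mono_null ?_ hA
    rintro _ ⟨g, hg, rfl⟩
    exact h g hg
  exact withDensity_absolutelyContinuous _ _ h1

/-- a linear condition is null -/
theorem null_linear (f : (Fin 3 → V3) →ₗ[ℝ] ℝ) (hf : f ≠ 0) :
    haarG {g : GR | f (ent g) = 0} = 0 := by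
  refine lebG_null_of (A := (LinearMap.ker f : Set (Fin 3 → V3))) (fun g hg => hg) ?_
  apply Measure.addHaar_submodule
  intro h
  exact hf (LinearMap.ker_eq_top.1 h)

theorem null_entry (i : Fin 3) : haarG {g : GR | ent g i 2 = 0} = 0 := by
  refine null_linear ((LinearMap.proj 2 : V3 →ₗ[ℝ] ℝ) ∘ₗ
    (LinearMap.proj i : (Fin 3 → V3) →ₗ[ℝ] V3)) ?_
  intro h
  have := LinearMap.congr_fun h (fun _ _ => (1 : ℝ))
  simp at this

/-- the linear form `x ↦ ∑ k, p k * x k i` -/
noncomputable def lf (p : V3) (i : Fin 3) : (Fin 3 → V3) →ₗ[ℝ] ℝ where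
  toFun x := ∑ k, p k * x k i
  map_add' x y := by
    rw [← Finset.sum_add_distrib]
    exact Finset.sum_congr rfl (fun k _ => by rw [Pi.add_apply, Pi.add_apply]; ring)
  map_smul' a x := by
    rw [RingHom.id_apply, smul_eq_mul, Finset.mul_sum]
    exact Finset.sum_congr rfl (fun k _ => by
      rw [Pi.smul_apply, Pi.smul_apply, smul_eq_mul]; ring)

theorem null_coef (p : V3) (hp : p 2 = 1) (i : Fin 3) :
    haarG {g : GR | coef (ent g) p i = 0} = 0 := by
  have hH : haarG.IsMulLeftInvariant := haar_left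
  have hK : IsFiniteMeasureOnCompacts haarG := haar_compact
  have h1 : {g : GR | coef (ent g) p i = 0} =
      (Inv.inv : GR → GR) ⁻¹' {g : GR | lf p i (ent g) = 0} := by
    ext g
    simp only [Set.mem_ofPred_eq, Set.mem_preimage]
    rw [coef_ent]
    rfl
  rw [h1]
  refine (quasiMeasurePreserving_inv haarG).preimage_null ?_
  refine null_linear _ ?_
  intro h
  have h2 := LinearMap.congr_fun h (Pi.single 2 (Pi.single i 1))
  have h3 : lf p i (Pi.single 2 (Pi.single i 1)) = 1 := by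
    show ∑ k, p k * (Pi.single 2 (Pi.single i 1) : Fin 3 → V3) k i = 1
    rw [Finset.sum_eq_single 2]
    · rw [Pi.single_eq_same, Pi.single_eq_same, hp, mul_one]
    · intro b _ hb
      rw [Pi.single_eq_of_ne hb]; simp
    · intro hc; exact absurd (Finset.mem_univ _) hc
  rw [h3] at h2
  simp at h2

theorem null_sphere (c : ℝ) : volume {v : V3 | nrm v = c} = 0 := by
  have h1 := (PiLp.volume_preserving_toLp (Fin 3))
  have h2 : {v : V3 | nrm v = c} =
      (WithLp.toLp 2 : V3 → EuclideanSpace ℝ (Fin 3)) ⁻¹' Metric.sphere 0 c := by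
    ext v
    simp only [Set.mem_ofPred_eq, Set.mem_preimage, mem_sphere_zero_iff_norm]
    rw [EuclideanSpace.norm_eq]
    have : nrm v = Real.sqrt (∑ i, ‖(WithLp.toLp 2 v : EuclideanSpace ℝ (Fin 3)) i‖ ^ 2) := by
      unfold nrm
      congr 1
      apply Finset.sum_congr rfl
      intro i _
      rw [Real.norm_eq_abs, sq_abs]
    rw [this]
  rw [h2, h1.measure_preimage (Metric.isClosed_sphere.measurableSet.nullMeasurableSet)]
  exact Measure.addHaar_sphere _ _ _

theorem null_nrm (i : Fin 3) (c : ℝ) : haarG {g : GR | nrm (ent g i) = c} = 0 := by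
  refine lebG_null_of (A := Function.eval i ⁻¹' {v : V3 | nrm v = c}) (fun g hg => hg) ?_
  exact (Measure.quasiMeasurePreserving_eval _ i).preimage_null (null_sphere c)

/-- the exceptional set -/
def NN : Set GR :=
  (⋃ i, {g : GR | ent g i 2 = 0}) ∪
  ((⋃ i, {g : GR | nrm (ent g i) = 1}) ∪ ((⋃ i, {g : GR | nrm (ent g i) = Real.exp 1}) ∪
  (⋃ x : ℤ, ⋃ y : ℤ, ⋃ i, {g : GR | coef (ent g) ![(x : ℝ), (y : ℝ), 1] i = 0})))

theorem null_NN : haarG NN = 0 := by
  unfold NN
  rw [measure_union_null_iff, measure_union_null_iff, measure_union_null_iff]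
  refine ⟨measure_iUnion_null null_entry, measure_iUnion_null (fun i => null_nrm i 1),
    measure_iUnion_null (fun i => null_nrm i _), ?_⟩
  exact measure_iUnion_null (fun x => measure_iUnion_null (fun y => measure_iUnion_null (fun i =>
    null_coef _ rfl i)))

/-- the triangle is locally bounded -/
theorem abs_le_of_PC (g : GR) (h0 : ∀ i, ent g i 2 ≠ 0) (x y : ℤ)
    (h : PC g ![(x : ℝ), (y : ℝ), 1]) (j : Fin 3) :
    |(![(x : ℝ), (y : ℝ), 1] : V3) j| ≤ ∑ i, |ent g i j| / |ent g i 2| := by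
  have hr : Matrix.det (Matrix.of (ent g)) ≠ 0 := detR_ne g
  set p : V3 := ![(x : ℝ), (y : ℝ), 1] with hp
  have h1 : ∑ i, coef (ent g) p i * ent g i 2 = 1 := (last_eq (ent g) hr p).symm
  have h2 : ∀ i, coef (ent g) p i * ent g i 2 ≤ 1 := by
    intro i
    rw [← h1]
    exact Finset.single_le_sum (fun k _ => h k) (Finset.mem_univ i)
  have h3 : ∀ i, |coef (ent g) p i| ≤ 1 / |ent g i 2| := by
    intro i
    rw [le_div_iff₀ (abs_pos.2 (h0 i)), ← abs_mul, abs_of_nonneg (h i)]
    exact h2 i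
  have h4 : p j = ∑ i, coef (ent g) p i * ent g i j := by
    conv_lhs => rw [← sum_coef (ent g) hr p]
    simp [Finset.sum_apply]
  rw [h4]
  refine (Finset.abs_sum_le_sum_abs _ _).trans (Finset.sum_le_sum (fun i _ => ?_))
  rw [abs_mul]
  calc |coef (ent g) p i| * |ent g i j| ≤ 1 / |ent g i 2| * |ent g i j| :=
        mul_le_mul_of_nonneg_right (h3 i) (abs_nonneg _)
    _ = |ent g i j| / |ent g i 2| := by ring

/-- outside `NN` the sign condition is locally constant -/
theorem PC_loc (g : GR) (p : V3) (h0 : ∀ i, ent g i 2 ≠ 0) (h1 : ∀ i, coef (ent g) p i ≠ 0) :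
    ∀ᶠ g' in 𝓝 g, (PC g' p ↔ PC g p) := by
  have hne : ∀ i, coef (ent g) p i * ent g i 2 ≠ 0 := fun i => mul_ne_zero (h1 i) (h0 i)
  have hc : ∀ i, Continuous (fun g : GR => coef (ent g) p i * ent g i 2) := fun i =>
    (continuous_coefG p i).mul (continuous_entry i 2)
  have hi : ∀ i, ∀ᶠ g' in 𝓝 g, (0 ≤ coef (ent g') p i * ent g' i 2 ↔
      0 ≤ coef (ent g) p i * ent g i 2) := by
    intro i
    rcases lt_or_gt_of_ne (hne i) with h | h
    · filter_upwards [(hc i).continuousAt.eventually (gt_mem_nhds h)] with g' hg'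
      exact ⟨fun h' => absurd h' (not_le.2 hg'), fun h' => absurd h' (not_le.2 h)⟩
    · filter_upwards [(hc i).continuousAt.eventually (lt_mem_nhds h)] with g' hg'
      exact ⟨fun _ => h.le, fun _ => hg'.le⟩
  filter_upwards [eventually_all.2 hi] with g' hg'
  exact forall_congr' hg'

theorem frontier_sub (S : Finset (ℤ × ℤ)) : frontier (WS S) ⊆ NN := by
  intro g hg
  by_contra hN
  have h0 : ∀ i, ent g i 2 ≠ 0 := by
    intro i h
    exact hN (Or.inl (Set.mem_iUnion.2 ⟨i, h⟩))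
  have h1 : ∀ i, nrm (ent g i) ≠ 1 := by
    intro i h
    exact hN (Or.inr (Or.inl (Set.mem_iUnion.2 ⟨i, h⟩)))
  have h2 : ∀ i, nrm (ent g i) ≠ Real.exp 1 := by
    intro i h
    exact hN (Or.inr (Or.inr (Or.inl (Set.mem_iUnion.2 ⟨i, h⟩))))
  have h3 : ∀ (x y : ℤ) (i : Fin 3), coef (ent g) ![(x : ℝ), (y : ℝ), 1] i ≠ 0 := by
    intro x y i h
    exact hN (Or.inr (Or.inr (Or.inr
      (Set.mem_iUnion.2 ⟨x, Set.mem_iUnion.2 ⟨y, Set.mem_iUnion.2 ⟨i, h⟩⟩⟩))))
  -- the last coordinates stay nonzero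
  have hl0 : ∀ᶠ g' in 𝓝 g, ∀ i, ent g' i 2 ≠ 0 := by
    rw [eventually_all]
    intro i
    exact (continuous_entry i 2).continuousAt.eventually_ne (h0 i)
  -- the norm conditions are locally constant
  have hnorm : ∀ᶠ g' in 𝓝 g, ((∀ i, 1 ≤ nrm (ent g' i) ∧ nrm (ent g' i) < Real.exp 1) ↔
      (∀ i, 1 ≤ nrm (ent g i) ∧ nrm (ent g i) < Real.exp 1)) := by
    have hi : ∀ i, ∀ᶠ g' in 𝓝 g, ((1 ≤ nrm (ent g' i) ∧ nrm (ent g' i) < Real.exp 1) ↔
        (1 ≤ nrm (ent g i) ∧ nrm (ent g i) < Real.exp 1)) := by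
      intro i
      have ha : ∀ᶠ g' in 𝓝 g, (1 ≤ nrm (ent g' i) ↔ 1 ≤ nrm (ent g i)) := by
        rcases lt_or_gt_of_ne (h1 i) with h | h
        · filter_upwards [(continuous_nrmG i).continuousAt.eventually (gt_mem_nhds h)] with g' hg'
          exact ⟨fun h' => absurd h' (not_le.2 hg'), fun h' => absurd h' (not_le.2 h)⟩
        · filter_upwards [(continuous_nrmG i).continuousAt.eventually (lt_mem_nhds h)] with g' hg'
          exact ⟨fun _ => h.le, fun _ => hg'.le⟩
      have hb : ∀ᶠ g' in 𝓝 g, (nrm (ent g' i) < Real.exp 1 ↔ nrm (ent g i) < Real.exp 1) := by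
        rcases lt_or_gt_of_ne (h2 i) with h | h
        · filter_upwards [(continuous_nrmG i).continuousAt.eventually (gt_mem_nhds h)] with g' hg'
          exact ⟨fun _ => h, fun _ => hg'⟩
        · filter_upwards [(continuous_nrmG i).continuousAt.eventually (lt_mem_nhds h)] with g' hg'
          exact ⟨fun h' => absurd hg' (not_lt.2 h'.le), fun h' => absurd h (not_lt.2 h'.le)⟩
      filter_upwards [ha, hb] with g' ha' hb'
      rw [ha', hb']
    filter_upwards [eventually_all.2 hi] with g' hg'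
    exact forall_congr' hg'
  -- `WS S` is locally constant at `g`
  have key : ∀ᶠ g' in 𝓝 g, (g' ∈ WS S ↔ g ∈ WS S) := by
    by_cases hU : UF S (ent g)
    · -- uniform bound for the triangles
      obtain ⟨B, hB⟩ : ∃ B : ℕ, ∀ j, ∑ i, |ent g i j| / |ent g i 2| < B := by
        obtain ⟨B, hB⟩ := exists_nat_gt (∑ j, ∑ i, |ent g i j| / |ent g i 2|)
        refine ⟨B, fun j => lt_of_le_of_lt ?_ hB⟩
        exact Finset.single_le_sum (f := fun j => ∑ i, |ent g i j| / |ent g i 2|)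
          (fun k _ => Finset.sum_nonneg (fun i _ => by positivity)) (Finset.mem_univ j)
      have hBl : ∀ᶠ g' in 𝓝 g, ∀ j, ∑ i, |ent g' i j| / |ent g' i 2| < B := by
        rw [eventually_all]
        intro j
        have hca : ContinuousAt (fun g' : GR => ∑ i, |ent g' i j| / |ent g' i 2|) g := by
          refine tendsto_finsetSum _ (fun i _ => ?_)
          exact (continuous_entry i j).abs.continuousAt.div (continuous_entry i 2).abs.continuousAt
            (abs_ne_zero.2 (h0 i))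
        exact hca.eventually (gt_mem_nhds (hB j))
      have hfin : ∀ᶠ g' in 𝓝 g, ∀ x ∈ Finset.Icc (-(B : ℤ)) B, ∀ y ∈ Finset.Icc (-(B : ℤ)) B,
          (PC g' ![(x : ℝ), (y : ℝ), 1] ↔ PC g ![(x : ℝ), (y : ℝ), 1]) := by
        rw [Filter.eventually_all_finset]
        intro x _
        rw [Filter.eventually_all_finset]
        intro y _
        exact PC_loc g _ h0 (h3 x y)
      have hbox : ∀ g' : GR, (∀ i, ent g' i 2 ≠ 0) →
          (∀ j, ∑ i, |ent g' i j| / |ent g' i 2| < B) → ∀ x y : ℤ,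
          PC g' ![(x : ℝ), (y : ℝ), 1] →
          x ∈ Finset.Icc (-(B : ℤ)) B ∧ y ∈ Finset.Icc (-(B : ℤ)) B := by
        intro g' h0' hB' x y hPC
        have a0 := lt_of_le_of_lt (abs_le_of_PC g' h0' x y hPC 0) (hB' 0)
        have a1 := lt_of_le_of_lt (abs_le_of_PC g' h0' x y hPC 1) (hB' 1)
        have b0 : |(x : ℝ)| < B := a0
        have b1 : |(y : ℝ)| < B := a1
        have c0 : |x| < (B : ℤ) := by exact_mod_cast b0
        have c1 : |y| < (B : ℤ) := by exact_mod_cast b1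
        rw [abs_lt] at c0 c1
        rw [Finset.mem_Icc, Finset.mem_Icc]
        exact ⟨⟨c0.1.le, c0.2.le⟩, ⟨c1.1.le, c1.2.le⟩⟩
      filter_upwards [hl0, hnorm, hBl, hfin] with g' a1 a2 a3 a4
      have hU' : UF S (ent g') := by
        refine ⟨a1, fun x y => ?_⟩
        have hgU := hU.2 x y
        constructor
        · intro hPC
          obtain ⟨hx, hy⟩ := hbox g' a1 a3 x y hPC
          exact hgU.1 ((a4 x hx y hy).1 hPC)
        · intro hp
          have hPCg : PC g ![(x : ℝ), (y : ℝ), 1] := hgU.2 hp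
          obtain ⟨hx, hy⟩ := hbox g h0 hB x y hPCg
          exact (a4 x hx y hy).2 hPCg
      constructor
      · intro h
        exact ⟨hU, a2.1 h.2⟩
      · intro h
        exact ⟨hU', a2.2 h.2⟩
    · -- some integer point violates the equivalence
      have hex : ∃ x y : ℤ, ¬ ((∀ i, 0 ≤ coef (ent g) ![(x : ℝ), (y : ℝ), 1] i * ent g i 2) ↔
          (![(x : ℝ), (y : ℝ), 1] : V3) ∈ poly S) := by
        by_contra hc
        push Not at hc
        apply hU
        refine ⟨h0, fun x y => ?_⟩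
        have := hc x y
        tauto
      obtain ⟨x, y, hxy⟩ := hex
      filter_upwards [PC_loc g _ h0 (h3 x y)] with g' hg'
      constructor
      · intro h
        exfalso
        apply hxy
        have h5 := h.1.2 x y
        exact hg'.symm.trans h5
      · intro h
        exact absurd h.1 hU
  by_cases hgW : g ∈ WS S
  · have : g ∈ interior (WS S) := by
      rw [mem_interior_iff_mem_nhds]
      filter_upwards [key] with g' hg'
      exact hg'.2 hgW
    exact hg.2 this
  · have : g ∉ closure (WS S) := by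
      intro hcl
      rw [mem_closure_iff_frequently] at hcl
      obtain ⟨g', h5, h6⟩ := (hcl.and_eventually key).exists
      exact hgW (h6.1 h5)
    exact this hg.1

/-! ### compactness -/

/-- determinant of a row stochastic matrix -/
theorem det_stoch (T : Fin 3 → Fin 3 → ℝ) (h0 : ∀ i j, 0 ≤ T i j) (h1 : ∀ i, ∑ j, T i j = 1) :
    |Matrix.det (Matrix.of T)| ≤ 1 := by
  have e0 := h1 0
  have e1 := h1 1
  have e2 := h1 2
  rw [Fin.sum_univ_three] at e0 e1 e2
  have hm : ∀ i j k, 0 ≤ T 0 i * T 1 j * T 2 k := fun i j k =>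
    mul_nonneg (mul_nonneg (h0 0 i) (h0 1 j)) (h0 2 k)
  have hprod : (T 0 0 + T 0 1 + T 0 2) * (T 1 0 + T 1 1 + T 1 2) * (T 2 0 + T 2 1 + T 2 2) = 1 := by
    rw [e0, e1, e2]; norm_num
  rw [Matrix.det_fin_three, abs_le]
  simp only [Matrix.of_apply]
  constructor
  · nlinarith [hm 0 0 0, hm 0 0 1, hm 0 0 2, hm 0 1 0, hm 0 1 1, hm 0 1 2, hm 0 2 0, hm 0 2 1,
      hm 0 2 2, hm 1 0 0, hm 1 0 1, hm 1 0 2, hm 1 1 0, hm 1 1 1, hm 1 1 2, hm 1 2 0, hm 1 2 1,
      hm 1 2 2, hm 2 0 0, hm 2 0 1, hm 2 0 2, hm 2 1 0, hm 2 1 1, hm 2 1 2, hm 2 2 0, hm 2 2 1,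
      hm 2 2 2]
  · nlinarith [hm 0 0 0, hm 0 0 1, hm 0 0 2, hm 0 1 0, hm 0 1 1, hm 0 1 2, hm 0 2 0, hm 0 2 1,
      hm 0 2 2, hm 1 0 0, hm 1 0 1, hm 1 0 2, hm 1 1 0, hm 1 1 1, hm 1 1 2, hm 1 2 0, hm 1 2 1,
      hm 1 2 2, hm 2 0 0, hm 2 0 1, hm 2 0 2, hm 2 1 0, hm 2 1 1, hm 2 1 2, hm 2 2 0, hm 2 2 1,
      hm 2 2 2]

/-- a box in the group is compact -/
theorem compact_box (R δ : ℝ) (hδ : 0 < δ) :
    IsCompact {g : GR | (∀ i j, |ent g i j| ≤ R) ∧ δ ≤ |detR g|} := by
  rw [isOpenEmbedding_ent.isEmbedding.isCompact_iff]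
  have h1 : ent '' {g : GR | (∀ i j, |ent g i j| ≤ R) ∧ δ ≤ |detR g|} =
      {x : Fin 3 → V3 | (∀ i j, |x i j| ≤ R) ∧ δ ≤ |Matrix.det (Matrix.of x)|} := by
    ext x
    constructor
    · rintro ⟨g, hg, rfl⟩
      exact hg
    · intro hx
      have hne : Matrix.det (Matrix.of x) ≠ 0 := by
        intro h
        have := hx.2
        rw [h, abs_zero] at this
        linarith
      exact ⟨Matrix.GeneralLinearGroup.mkOfDetNeZero (Matrix.of x) hne, hx, rfl⟩
  rw [h1]
  have hcl : IsClosed {x : Fin 3 → V3 | (∀ i j, |x i j| ≤ R) ∧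
      δ ≤ |Matrix.det (Matrix.of x)|} := by
    have a1 : IsClosed {x : Fin 3 → V3 | ∀ i j, |x i j| ≤ R} := by
      have : {x : Fin 3 → V3 | ∀ i j, |x i j| ≤ R} = ⋂ i, ⋂ j, {x : Fin 3 → V3 | |x i j| ≤ R} := by
        ext x; simp
      rw [this]
      exact isClosed_iInter (fun i => isClosed_iInter (fun j =>
        isClosed_le (continuous_apply_apply i j).abs continuous_const))
    have a2 : IsClosed {x : Fin 3 → V3 | δ ≤ |Matrix.det (Matrix.of x)|} :=
      isClosed_le continuous_const (Continuous.matrix_det continuous_id).abs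
    exact a1.inter a2
  have hcp : IsCompact (Set.univ.pi (fun _ : Fin 3 =>
      Set.univ.pi (fun _ : Fin 3 => Set.Icc (-R) R))) :=
    isCompact_univ_pi (fun _ => isCompact_univ_pi (fun _ => isCompact_Icc))
  refine hcp.of_isClosed_subset hcl ?_
  intro x hx i _ j _
  exact abs_le.1 (hx.1 i j)

theorem sqrt_bound {a b R : ℝ} (ha : |a| ≤ R) (hb : |b| ≤ R) :
    Real.sqrt (a ^ 2 + b ^ 2 + 1) ≤ 2 * R + 1 := by
  have hR : 0 ≤ R := (abs_nonneg a).trans ha
  rw [Real.sqrt_le_left (by linarith)]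
  have h1 : a ^ 2 ≤ R ^ 2 := by rw [← sq_abs]; exact pow_le_pow_left₀ (abs_nonneg _) ha 2
  have h2 : b ^ 2 ≤ R ^ 2 := by rw [← sq_abs]; exact pow_le_pow_left₀ (abs_nonneg _) hb 2
  nlinarith

/-- the affine chart of the rows -/
noncomputable def pt (r : Fin 3 → V3) (i : Fin 3) : Fin 2 → ℝ := ![r i 0 / r i 2, r i 1 / r i 2]

theorem liftP_apply (p : Fin 3 → Fin 2 → ℝ) (i : Fin 3) :
    liftP (n := 2) p i = ![p i 0, p i 1, 1] := by
  funext j
  fin_cases j
  · rfl
  · rfl
  · rfl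

theorem liftP_pt (r : Fin 3 → V3) (h0 : ∀ i, r i 2 ≠ 0) (i : Fin 3) :
    r i = r i 2 • liftP (n := 2) (pt r) i := by
  rw [liftP_apply]
  funext j
  fin_cases j
  · show r i 0 = r i 2 * (r i 0 / r i 2)
    field_simp [h0 i]
  · show r i 1 = r i 2 * (r i 1 / r i 2)
    field_simp [h0 i]
  · show r i 2 = r i 2 * 1
    rw [mul_one]

theorem det_pt (r : Fin 3 → V3) (h0 : ∀ i, r i 2 ≠ 0) :
    Matrix.det (Matrix.of r) = (r 0 2 * r 1 2 * r 2 2) * detP (n := 2) (pt r) := by
  have h1 : Matrix.of r = Matrix.of (fun i j => r i 2 * (Matrix.of (liftP (n := 2) (pt r))) i j) := by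
    ext i j
    exact congrFun (liftP_pt r h0 i) j
  have h2 : Matrix.det (Matrix.of r) =
      (∏ i, r i 2) * Matrix.det (Matrix.of (liftP (n := 2) (pt r))) := by
    conv_lhs => rw [h1]
    exact Matrix.det_mul_column (fun i => r i 2) (Matrix.of (liftP (n := 2) (pt r)))
  rw [h2, Fin.prod_univ_three]
  rfl

/-- `UF` is invariant under scaling of the rows -/
theorem UF_scale (S : Finset (ℤ × ℤ)) (r r' : Fin 3 → V3) (hr : Matrix.det (Matrix.of r) ≠ 0)
    (hr' : Matrix.det (Matrix.of r') ≠ 0) (c : Fin 3 → ℝ) (hc : ∀ i, c i ≠ 0)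
    (h : ∀ i, r i = c i • r' i) (hU : UF S r) : UF S r' := by
  obtain ⟨h0, h1⟩ := hU
  have hz : ∀ i, r i 2 = c i * r' i 2 := fun i => by rw [h i]; rfl
  have hcoef : ∀ p : V3, ∀ i, coef r' p i = coef r p i * c i := by
    intro p i
    have e1 : ∑ i, (coef r p i * c i) • r' i = p := by
      conv_rhs => rw [← sum_coef r hr p]
      apply Finset.sum_congr rfl
      intro k _
      rw [h k, smul_smul]
    have e2 := coef_sum r' hr' (fun i => coef r p i * c i)
    rw [e1] at e2
    exact congrFun e2 i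
  refine ⟨fun i h2 => ?_, fun x y => ?_⟩
  · apply h0 i
    rw [hz i, h2, mul_zero]
  · rw [← h1 x y]
    apply forall_congr'
    intro i
    rw [hcoef, hz i, mul_assoc]

theorem compact_WS (S : Finset (ℤ × ℤ)) (hS : Dim2 S) (hR : RelCpt S) :
    ∃ K : Set GR, IsCompact K ∧ WS S ⊆ K := by
  obtain ⟨R, hR⟩ := hR
  have hR0 : 0 < 2 * |R| + 1 := by positivity
  refine ⟨{g : GR | (∀ i j, |ent g i j| ≤ Real.exp 1) ∧ (1 / (2 * |R| + 1)) ^ 3 ≤ |detR g|},
    compact_box _ _ (by positivity), ?_⟩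
  rintro g ⟨hU, hn⟩
  have hr : Matrix.det (Matrix.of (ent g)) ≠ 0 := detR_ne g
  have h0 := hU.1
  have hentry : ∀ i j, |ent g i j| ≤ nrm (ent g i) := by
    intro i j
    unfold nrm
    rw [← Real.sqrt_sq_eq_abs]
    exact Real.sqrt_le_sqrt (Finset.single_le_sum (f := fun k => ent g i k ^ 2)
      (fun k _ => sq_nonneg _) (Finset.mem_univ j))
  have hdp := det_pt (ent g) h0
  have hdetP : detP (n := 2) (pt (ent g)) ≠ 0 := by
    intro h
    rw [h, mul_zero] at hdp
    exact hr hdp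
  have hUP : UF S (liftP (n := 2) (pt (ent g))) :=
    UF_scale S (ent g) _ hr hdetP (fun i => ent g i 2) h0 (liftP_pt (ent g) h0) hU
  have hface : IsFace (n := 2) (liftP (n := 2) (pt (ent g))) (poly S) :=
    backward S _ hS hdetP hUP
  have hb := hR _ hdetP hface
  -- lower bound for the last coordinates
  have hz : ∀ i, 1 / (2 * |R| + 1) ≤ |ent g i 2| := by
    intro i
    have h1 : nrm (ent g i) = |ent g i 2| *
        Real.sqrt (pt (ent g) i 0 ^ 2 + pt (ent g) i 1 ^ 2 + 1) := by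
      have e : ∀ j, ent g i j = ent g i 2 * (![pt (ent g) i 0, pt (ent g) i 1, 1] : V3) j := by
        intro j
        have := congrFun (liftP_pt (ent g) h0 i) j
        rw [liftP_apply] at this
        exact this
      unfold nrm
      rw [Fin.sum_univ_three, e 0, e 1]
      have e2 : (ent g i 2 * (![pt (ent g) i 0, pt (ent g) i 1, 1] : V3) 0) ^ 2 +
          (ent g i 2 * (![pt (ent g) i 0, pt (ent g) i 1, 1] : V3) 1) ^ 2 + ent g i 2 ^ 2 =
          (ent g i 2) ^ 2 * (pt (ent g) i 0 ^ 2 + pt (ent g) i 1 ^ 2 + 1) := by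
        simp only [Matrix.cons_val_zero, Matrix.cons_val_one]
        ring
      rw [e2, Real.sqrt_mul (sq_nonneg _), Real.sqrt_sq_eq_abs]
    have h2 := (hn i).1
    rw [h1] at h2
    have h3 := sqrt_bound ((hb i 0).trans (le_abs_self R)) ((hb i 1).trans (le_abs_self R))
    rw [div_le_iff₀ hR0]
    calc (1 : ℝ) ≤ |ent g i 2| * Real.sqrt (pt (ent g) i 0 ^ 2 + pt (ent g) i 1 ^ 2 + 1) := h2
      _ ≤ |ent g i 2| * (2 * |R| + 1) := mul_le_mul_of_nonneg_left h3 (abs_nonneg _)
  -- lower bound for `detP`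
  have hP1 : 1 ≤ |detP (n := 2) (pt (ent g))| := by
    obtain ⟨a, ha, b, hb', c, hc, hdet⟩ := hS
    set P := liftP (n := 2) (pt (ent g)) with hPdef
    let q : Fin 3 → V3 := ![![(a.1 : ℝ), (a.2 : ℝ), 1], ![(b.1 : ℝ), (b.2 : ℝ), 1],
      ![(c.1 : ℝ), (c.2 : ℝ), 1]]
    have hP2 : ∀ i, P i 2 = 1 := fun i => by rw [hPdef, liftP_apply]; rfl
    have hnn : ∀ x y : ℤ, (![(x : ℝ), (y : ℝ), 1] : V3) ∈ poly S →
        (∀ i, 0 ≤ coef P ![(x : ℝ), (y : ℝ), 1] i) ∧ ∑ i, coef P ![(x : ℝ), (y : ℝ), 1] i = 1 := by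
      intro x y hxy
      have h1 := (hUP.2 x y).2 hxy
      refine ⟨fun i => ?_, ?_⟩
      · have := h1 i
        rwa [hP2, mul_one] at this
      · have h3 := last_eq P hdetP ![(x : ℝ), (y : ℝ), 1]
        simp only [hP2, mul_one] at h3
        exact h3.symm
    have hq : ∀ i, (∀ j, 0 ≤ coef P (q i) j) ∧ ∑ j, coef P (q i) j = 1 := by
      intro i
      fin_cases i
      · exact hnn a.1 a.2 (mem_poly ha)
      · exact hnn b.1 b.2 (mem_poly hb')
      · exact hnn c.1 c.2 (mem_poly hc)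
    have hmat : Matrix.of q = Matrix.of (fun i => coef P (q i)) * Matrix.of P := by
      ext i j
      have h4 := congrFun (vecMul_coef P hdetP (q i)) j
      rw [Matrix.mul_apply]
      exact h4.symm
    have hdq : Matrix.det (Matrix.of q) =
        (((b.1 - a.1) * (c.2 - a.2) - (b.2 - a.2) * (c.1 - a.1) : ℤ) : ℝ) := by
      rw [Matrix.det_fin_three]
      simp only [q, Matrix.of_apply, Matrix.cons_val_zero, Matrix.cons_val_one, Matrix.cons_val]
      push_cast
      ring
    have h5 : 1 ≤ |Matrix.det (Matrix.of q)| := by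
      rw [hdq, ← Int.cast_abs]
      exact_mod_cast Int.one_le_abs hdet
    rw [hmat, Matrix.det_mul, abs_mul] at h5
    have h6 := det_stoch (fun i => coef P (q i)) (fun i j => (hq i).1 j) (fun i => (hq i).2)
    have h7 : 0 ≤ |Matrix.det (Matrix.of P)| := abs_nonneg _
    have h8 : |detP (n := 2) (pt (ent g))| = |Matrix.det (Matrix.of P)| := rfl
    rw [h8]
    nlinarith
  refine ⟨fun i j => (hentry i j).trans (hn i).2.le, ?_⟩
  have h9 : |detR g| = |ent g 0 2| * |ent g 1 2| * |ent g 2 2| * |detP (n := 2) (pt (ent g))| := by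
    have : detR g = (ent g 0 2 * ent g 1 2 * ent g 2 2) * detP (n := 2) (pt (ent g)) := hdp
    rw [this, abs_mul, abs_mul, abs_mul]
  rw [h9]
  have hδ : 0 < 1 / (2 * |R| + 1) := by positivity
  have k0 := hz 0
  have k1 := hz 1
  have k2 := hz 2
  calc (1 / (2 * |R| + 1)) ^ 3 = (1 / (2 * |R| + 1)) * (1 / (2 * |R| + 1)) *
        (1 / (2 * |R| + 1)) * 1 := by ring
    _ ≤ |ent g 0 2| * |ent g 1 2| * |ent g 2 2| * |detP (n := 2) (pt (ent g))| := by
        gcongr

end WMm

theorem t_WM : T_WM := WMm.measurable_WS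

theorem t_W : T_W := fun S hS hR =>
  ⟨WMm.compact_WS S hS hR, measure_mono_null (WMm.frontier_sub S) WMm.null_NN⟩

end KF
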