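import Mathlib
import Pool.Agent.H22.KF.Defs
import Pool.Agent.H22.KF.Group
import Pool.Agent.H22.KF.Frames
import Pool.Agent.H22.KF.Targets
import Pool.Agent.H62.KF.HAAR
import Pool.Agent.H62.KF.FACE
import Pool.Agent.H62.KF.WM

/-!
# MP_3fd637_nt : module HW
-/

open MeasureTheory Filter Topology
open scoped ENNReal

namespace KF

namespace HWm

open FACEm HAARm WMm

/-! ### products -/

theorem lintegral_fin_prod {n : ℕ} {E : Type} [MeasureSpace E]
    [SigmaFinite (volume : Measure E)] (f : Fin n → E → ℝ≥0∞) (hf : ∀ i, Measurable (f i)) :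
    ∫⁻ x : Fin n → E, ∏ i, f i (x i) = ∏ i, ∫⁻ x, f i x := by
  induction n with
  | zero =>
    simp [volume_pi, lintegral_unique]
  | succ n ih =>
    have hmp := (volume_preserving_piFinSuccAbove (fun _ : Fin (n + 1) => E) 0).symm
    rw [← hmp.lintegral_comp_emb (MeasurableEquiv.measurableEmbedding _)]
    have h1 : ∀ y : E × (Fin n → E),
        (∏ i, f i ((MeasurableEquiv.piFinSuccAbove (fun _ : Fin (n + 1) => E) 0).symm y i)) =
        f 0 y.1 * ∏ i : Fin n, f i.succ (y.2 i) := by
      intro y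
      rw [Fin.prod_univ_succ]
      rfl
    simp_rw [h1]
    have h2 := lintegral_prod_mul (μ := (volume : Measure E)) (ν := (volume : Measure (Fin n → E)))
      (f := f 0) (g := fun y => ∏ i : Fin n, f i.succ (y i)) (hf 0).aemeasurable
      (by
        apply Measurable.aemeasurable
        exact Finset.measurable_fun_prod _ (fun i _ => (hf i.succ).comp (measurable_pi_apply i)))
    rw [ih (fun i => f i.succ) (fun i => hf i.succ)] at h2
    rw [Fin.prod_univ_succ]
    exact h2

theorem pi_withDensity {n : ℕ} {E : Type} [MeasureSpace E]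
    [SigmaFinite (volume : Measure E)] (a : E → ℝ≥0∞) (ha : Measurable a) (hfin : ∀ x, a x ≠ ∞) :
    Measure.pi (fun _ : Fin n => (volume : Measure E).withDensity a) =
      (volume : Measure (Fin n → E)).withDensity (fun x => ∏ i, a (x i)) := by
  have hs : SigmaFinite ((volume : Measure E).withDensity a) :=
    SigmaFinite.withDensity_of_ne_top' hfin
  refine Measure.pi_eq (fun s hs => ?_)
  rw [withDensity_apply _ (MeasurableSet.univ_pi hs)]
  have h1 : ∀ i, (volume : Measure E).withDensity a (s i) =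
      ∫⁻ x, (s i).indicator a x := by
    intro i
    rw [withDensity_apply _ (hs i), lintegral_indicator (hs i)]
  simp_rw [h1]
  rw [← lintegral_fin_prod (fun i => (s i).indicator a) (fun i => ha.indicator (hs i)),
    ← lintegral_indicator (MeasurableSet.univ_pi hs)]
  apply lintegral_congr
  intro x
  by_cases hx : x ∈ Set.univ.pi s
  · rw [Set.indicator_of_mem hx]
    apply Finset.prod_congr rfl
    intro i _
    rw [Set.indicator_of_mem (hx i (Set.mem_univ i))]
  · rw [Set.indicator_of_notMem hx]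
    rw [Set.mem_univ_pi] at hx
    push Not at hx
    obtain ⟨i, hi⟩ := hx
    symm
    exact Finset.prod_eq_zero (Finset.mem_univ i) (Set.indicator_of_notMem hi a)

theorem pi_smul_volume {n : ℕ} {E : Type} [MeasureSpace E]
    [SigmaFinite (volume : Measure E)] (c : ℝ≥0∞) (hc : c ≠ ∞) :
    Measure.pi (fun _ : Fin n => c • (volume : Measure E)) =
      c ^ n • (volume : Measure (Fin n → E)) := by
  have hs : SigmaFinite (c • (volume : Measure E)) := by
    have h1 : c • (volume : Measure E) = (volume : Measure E).withDensity (fun _ => c) := by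
      rw [withDensity_const]
    rw [h1]
    exact SigmaFinite.withDensity_of_ne_top' (fun _ => hc)
  refine Measure.pi_eq (fun s hs => ?_)
  rw [Measure.smul_apply, volume_pi_pi]
  simp only [Measure.smul_apply, smul_eq_mul, Finset.prod_mul_distrib, Finset.prod_const,
    Finset.card_univ, Fintype.card_fin]

/-! ### one row -/

/-- the density -/
noncomputable def dens (v : V3) : ℝ≥0∞ :=
  Set.indicator {v : V3 | v 2 ≠ 0 ∧ 1 ≤ nrm v ∧ nrm v < Real.exp 1}
    (fun v => ENNReal.ofReal ((|v 2| ^ 3)⁻¹)) v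

theorem measurableSet_A :
    MeasurableSet {v : V3 | v 2 ≠ 0 ∧ 1 ≤ nrm v ∧ nrm v < Real.exp 1} := by
  have h1 : MeasurableSet {v : V3 | v 2 ≠ 0} :=
    (isOpen_ne_fun (continuous_apply 2) continuous_const).measurableSet
  have h2 : MeasurableSet {v : V3 | 1 ≤ nrm v} :=
    (isClosed_le continuous_const continuous_nrm).measurableSet
  have h3 : MeasurableSet {v : V3 | nrm v < Real.exp 1} :=
    (isOpen_lt continuous_nrm continuous_const).measurableSet
  exact h1.inter (h2.inter h3)

theorem measurable_dens : Measurable dens := by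
  refine Measurable.indicator ?_ measurableSet_A
  exact ENNReal.measurable_ofReal.comp (((measurable_pi_apply 2).abs.pow_const 3).inv)

theorem dens_ne_top (v : V3) : dens v ≠ ∞ := by
  unfold dens
  rw [Set.indicator_apply]
  split_ifs
  · exact ENNReal.ofReal_ne_top
  · exact ENNReal.zero_ne_top

/-- the projection to the affine chart -/
noncomputable def prj (v : V3) : Fin 2 → ℝ := ![v 0 / v 2, v 1 / v 2]

theorem measurable_prj : Measurable prj := by
  rw [measurable_pi_iff]
  intro i
  fin_cases i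
  · exact (measurable_pi_apply 0).div (measurable_pi_apply 2)
  · exact (measurable_pi_apply 1).div (measurable_pi_apply 2)

/-- the point `z (p, 1)` -/
def up (z : ℝ) (p : Fin 2 → ℝ) : V3 := ![z * p 0, z * p 1, z]

/-- polar type coordinates in one row -/
theorem one_row (f : V3 → ℝ≥0∞) (hf : Measurable f) :
    ∫⁻ v, f v = ∫⁻ p : Fin 2 → ℝ, ∫⁻ z : ℝ, ENNReal.ofReal (|z| ^ 2) * f (up z p) := by
  have hmp := (volume_preserving_piFinSuccAbove (fun _ : Fin 3 => ℝ) (Fin.last 2)).symm
  rw [← hmp.lintegral_comp_emb (MeasurableEquiv.measurableEmbedding _)]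
  have h1 : ∀ y : ℝ × (Fin 2 → ℝ),
      (MeasurableEquiv.piFinSuccAbove (fun _ : Fin 3 => ℝ) (Fin.last 2)).symm y =
      ![y.2 0, y.2 1, y.1] := by
    intro y
    funext i
    fin_cases i <;> rfl
  simp_rw [h1]
  have hmeas : Measurable (fun y : ℝ × (Fin 2 → ℝ) => f ![y.2 0, y.2 1, y.1]) := by
    apply hf.comp
    rw [measurable_pi_iff]
    intro i
    fin_cases i
    · show Measurable (fun y : ℝ × (Fin 2 → ℝ) => y.2 0)
      exact (measurable_pi_apply 0).comp measurable_snd
    · show Measurable (fun y : ℝ × (Fin 2 → ℝ) => y.2 1)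
      exact (measurable_pi_apply 1).comp measurable_snd
    · show Measurable (fun y : ℝ × (Fin 2 → ℝ) => y.1)
      exact measurable_fst
  have h2 : ∫⁻ y : ℝ × (Fin 2 → ℝ), f ![y.2 0, y.2 1, y.1] =
      ∫⁻ z : ℝ, ∫⁻ q : Fin 2 → ℝ, f ![q 0, q 1, z] := by
    rw [Measure.volume_eq_prod, lintegral_prod _ hmeas.aemeasurable]
  have h2' : ∫⁻ y : ℝ × (Fin (1 + 1) → ℝ), f ![y.2 0, y.2 1, y.1] =
      ∫⁻ z : ℝ, ∫⁻ q : Fin 2 → ℝ, f ![q 0, q 1, z] := h2
  refine Eq.trans ?_ (h2'.trans ?_)
  · rfl
  have h3 : ∀ᵐ z : ℝ, ∫⁻ q : Fin 2 → ℝ, f ![q 0, q 1, z] =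
      ∫⁻ p : Fin 2 → ℝ, ENNReal.ofReal (|z| ^ 2) * f (up z p) := by
    have hz : ∀ᵐ z : ℝ, z ≠ 0 := by
      rw [ae_iff]
      simp
    filter_upwards [hz] with z hz
    have hg : Measurable (fun q : Fin 2 → ℝ => f ![q 0, q 1, z]) := by
      apply hf.comp
      rw [measurable_pi_iff]
      intro i
      fin_cases i
      · exact measurable_pi_apply 0
      · exact measurable_pi_apply 1
      · exact measurable_const
    have hg2 : Measurable (fun p : Fin 2 → ℝ => f (up z p)) := by
      have : (fun p : Fin 2 → ℝ => f (up z p)) =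
          (fun q : Fin 2 → ℝ => f ![q 0, q 1, z]) ∘ (fun p => z • p) := rfl
      rw [this]
      exact hg.comp (measurable_const_smul z)
    have h4 := Measure.map_addHaar_smul (volume : Measure (Fin 2 → ℝ)) hz
    have h5 : ∫⁻ q, f ![q 0, q 1, z] ∂(Measure.map (z • ·) (volume : Measure (Fin 2 → ℝ))) =
        ∫⁻ p : Fin 2 → ℝ, f (up z p) := by
      rw [lintegral_map hg (measurable_const_smul z)]
      rfl
    rw [h4, lintegral_smul_measure] at h5
    rw [lintegral_const_mul _ hg2, ← h5, Module.finrank_fin_fun, smul_eq_mul, ← mul_assoc,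
      ← ENNReal.ofReal_mul (by positivity)]
    have : |z| ^ 2 * |(z ^ 2)⁻¹| = 1 := by
      rw [abs_inv, abs_pow, mul_inv_cancel₀]
      positivity
    rw [this, ENNReal.ofReal_one, one_mul]
  rw [lintegral_congr_ae h3]
  rw [lintegral_lintegral_swap]
  apply Measurable.aemeasurable
  refine Measurable.mul ?_ ?_
  · exact ENNReal.measurable_ofReal.comp ((measurable_fst.abs).pow_const 2)
  · apply hf.comp
    rw [measurable_pi_iff]
    intro i
    fin_cases i
    · exact measurable_fst.mul ((measurable_pi_apply 0).comp measurable_snd)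
    · exact measurable_fst.mul ((measurable_pi_apply 1).comp measurable_snd)
    · exact measurable_fst

theorem lint_inv (N : ℝ) (hN : 0 < N) :
    ∫⁻ z in Set.Ico (1 / N) (Real.exp 1 / N), ENNReal.ofReal z⁻¹ = 1 := by
  have h1N : 0 < 1 / N := by positivity
  have hle : 1 / N ≤ Real.exp 1 / N := by
    have : (1 : ℝ) ≤ Real.exp 1 := Real.one_le_exp (by norm_num)
    gcongr
  have hint : IntervalIntegrable (fun z : ℝ => z⁻¹) volume (1 / N) (Real.exp 1 / N) := by
    apply intervalIntegral.intervalIntegrable_inv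
    · intro x hx
      rw [Set.uIcc_of_le hle] at hx
      exact (lt_of_lt_of_le h1N hx.1).ne'
    · exact continuousOn_id
  have hint2 : IntegrableOn (fun z : ℝ => z⁻¹) (Set.Ico (1 / N) (Real.exp 1 / N)) := by
    rw [integrableOn_Ico_iff_integrableOn_Ioo, ← integrableOn_Ioc_iff_integrableOn_Ioo]
    exact (intervalIntegrable_iff_integrableOn_Ioc_of_le hle).1 hint
  rw [← ofReal_integral_eq_lintegral_ofReal hint2]
  · rw [integral_Ico_eq_integral_Ioo, ← integral_Ioc_eq_integral_Ioo,
      ← intervalIntegral.integral_of_le hle, integral_inv_of_pos h1N (by positivity)]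
    have : Real.exp 1 / N / (1 / N) = Real.exp 1 := by field_simp
    rw [this, Real.log_exp, ENNReal.ofReal_one]
  · rw [EventuallyLE, ae_restrict_iff' measurableSet_Ico]
    refine Eventually.of_forall (fun z hz => ?_)
    have : 0 < z := lt_of_lt_of_le h1N hz.1
    show 0 ≤ z⁻¹
    positivity

theorem lint_inv_abs (N : ℝ) (hN : 0 < N) :
    ∫⁻ z, Set.indicator {z : ℝ | 1 ≤ |z| * N ∧ |z| * N < Real.exp 1}
      (fun z => ENNReal.ofReal |z|⁻¹) z = 2 := by
  have hms : MeasurableSet {z : ℝ | 1 ≤ |z| * N ∧ |z| * N < Real.exp 1} := by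
    have h1 : MeasurableSet {z : ℝ | 1 ≤ |z| * N} :=
      (isClosed_le continuous_const (continuous_abs.mul continuous_const)).measurableSet
    have h2 : MeasurableSet {z : ℝ | |z| * N < Real.exp 1} :=
      (isOpen_lt (continuous_abs.mul continuous_const) continuous_const).measurableSet
    exact h1.inter h2
  have hset : {z : ℝ | 1 ≤ |z| * N ∧ |z| * N < Real.exp 1} =
      Set.Ico (1 / N) (Real.exp 1 / N) ∪ (-Set.Ico (1 / N) (Real.exp 1 / N)) := by
    ext z
    simp only [Set.mem_ofPred_eq, Set.mem_union, Set.mem_Ico, Set.mem_neg]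
    rw [div_le_iff₀ hN, lt_div_iff₀ hN, div_le_iff₀ hN, lt_div_iff₀ hN]
    rcases le_total 0 z with h | h
    · rw [abs_of_nonneg h]
      constructor
      · intro h2; exact Or.inl h2
      · rintro (h2 | h2)
        · exact h2
        · nlinarith [mul_nonneg h hN.le]
    · rw [abs_of_nonpos h]
      constructor
      · intro h2; exact Or.inr h2
      · rintro (h2 | h2)
        · nlinarith [mul_nonneg (neg_nonneg.2 h) hN.le]
        · exact h2
  have hdisj : Disjoint (Set.Ico (1 / N) (Real.exp 1 / N))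
      (-Set.Ico (1 / N) (Real.exp 1 / N)) := by
    rw [Set.disjoint_left]
    intro z hz hz'
    have h1N : 0 < 1 / N := by positivity
    have h1 := hz.1
    have h2 := hz'.1
    linarith
  rw [lintegral_indicator hms, hset, lintegral_union measurableSet_Ico.neg hdisj]
  have e1 : ∫⁻ z in Set.Ico (1 / N) (Real.exp 1 / N), ENNReal.ofReal |z|⁻¹ = 1 := by
    rw [← lint_inv N hN]
    apply setLIntegral_congr_fun measurableSet_Ico
    intro z hz
    have h1N : 0 < 1 / N := by positivity
    have : 0 < z := lt_of_lt_of_le h1N hz.1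
    show ENNReal.ofReal |z|⁻¹ = ENNReal.ofReal z⁻¹
    rw [abs_of_pos this]
  have e2 : ∫⁻ z in -Set.Ico (1 / N) (Real.exp 1 / N), ENNReal.ofReal |z|⁻¹ = 1 := by
    rw [← e1]
    have hneg : MeasurePreserving (fun z : ℝ => -z) volume volume :=
      Measure.measurePreserving_neg volume
    have h3 := hneg.setLIntegral_comp_preimage (s := Set.Ico (1 / N) (Real.exp 1 / N))
      measurableSet_Ico (f := fun z : ℝ => ENNReal.ofReal |z|⁻¹)
      (ENNReal.measurable_ofReal.comp (continuous_abs.measurable.inv))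
    rw [← h3]
    simp only [abs_neg]
    rfl
  rw [e1, e2]
  norm_num

theorem nrm_up (z : ℝ) (p : Fin 2 → ℝ) :
    nrm (up z p) = |z| * Real.sqrt (p 0 ^ 2 + p 1 ^ 2 + 1) := by
  unfold nrm up
  rw [Fin.sum_univ_three]
  have : (![z * p 0, z * p 1, z] : V3) 0 ^ 2 + (![z * p 0, z * p 1, z] : V3) 1 ^ 2 +
      (![z * p 0, z * p 1, z] : V3) 2 ^ 2 = z ^ 2 * (p 0 ^ 2 + p 1 ^ 2 + 1) := by
    simp only [Matrix.cons_val_zero, Matrix.cons_val_one, Matrix.cons_val]
    ring
  rw [this, Real.sqrt_mul (sq_nonneg _), Real.sqrt_sq_eq_abs]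

theorem map_prj : Measure.map prj ((volume : Measure V3).withDensity dens) =
    (2 : ℝ≥0∞) • (volume : Measure (Fin 2 → ℝ)) := by
  ext B hB
  rw [Measure.map_apply measurable_prj hB, withDensity_apply _ (measurable_prj hB),
    ← lintegral_indicator (measurable_prj hB),
    one_row _ (measurable_dens.indicator (measurable_prj hB))]
  have h1 : ∀ p : Fin 2 → ℝ,
      ∫⁻ z : ℝ, ENNReal.ofReal (|z| ^ 2) * (prj ⁻¹' B).indicator dens (up z p) =
      B.indicator (fun _ => 2) p := by
    classical
    intro p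
    have hN : 0 < Real.sqrt (p 0 ^ 2 + p 1 ^ 2 + 1) := Real.sqrt_pos.2 (by positivity)
    rw [Set.indicator_apply]
    have hpt : ∀ z : ℝ, ENNReal.ofReal (|z| ^ 2) * (prj ⁻¹' B).indicator dens (up z p) =
        if p ∈ B then Set.indicator {z : ℝ | 1 ≤ |z| * Real.sqrt (p 0 ^ 2 + p 1 ^ 2 + 1) ∧
          |z| * Real.sqrt (p 0 ^ 2 + p 1 ^ 2 + 1) < Real.exp 1}
          (fun z => ENNReal.ofReal |z|⁻¹) z else 0 := by
      intro z
      by_cases hz : z = 0
      · subst hz
        have h0 : ENNReal.ofReal (|(0 : ℝ)| ^ 2) = 0 := by simp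
        rw [h0, zero_mul]
        split_ifs
        · rw [Set.indicator_of_notMem]
          rintro ⟨h1, -⟩
          rw [abs_zero, zero_mul] at h1
          norm_num at h1
        · rfl
      · have hprj : prj (up z p) = p := by
          funext i
          fin_cases i
          · show z * p 0 / z = p 0
            field_simp
          · show z * p 1 / z = p 1
            field_simp
        have hmem : up z p ∈ prj ⁻¹' B ↔ p ∈ B := by
          rw [Set.mem_preimage, hprj]
        by_cases hp : p ∈ B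
        · rw [if_pos hp, Set.indicator_of_mem (hmem.2 hp)]
          unfold dens
          by_cases hc : 1 ≤ |z| * Real.sqrt (p 0 ^ 2 + p 1 ^ 2 + 1) ∧
              |z| * Real.sqrt (p 0 ^ 2 + p 1 ^ 2 + 1) < Real.exp 1
          · rw [Set.indicator_of_mem (s := {z : ℝ | 1 ≤ |z| * Real.sqrt (p 0 ^ 2 + p 1 ^ 2 + 1) ∧
              |z| * Real.sqrt (p 0 ^ 2 + p 1 ^ 2 + 1) < Real.exp 1}) hc]
            have hA : up z p ∈ {v : V3 | v 2 ≠ 0 ∧ 1 ≤ nrm v ∧ nrm v < Real.exp 1} := by
              refine ⟨hz, ?_⟩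
              rw [nrm_up]
              exact hc
            rw [Set.indicator_of_mem hA, ← ENNReal.ofReal_mul (by positivity)]
            congr 1
            have e2 : (up z p) 2 = z := rfl
            have hz' := abs_pos.2 hz
            rw [e2]
            field_simp
          · rw [Set.indicator_of_notMem (s := {z : ℝ | 1 ≤ |z| *
              Real.sqrt (p 0 ^ 2 + p 1 ^ 2 + 1) ∧
              |z| * Real.sqrt (p 0 ^ 2 + p 1 ^ 2 + 1) < Real.exp 1}) hc]
            have hA : up z p ∉ {v : V3 | v 2 ≠ 0 ∧ 1 ≤ nrm v ∧ nrm v < Real.exp 1} := by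
              rintro ⟨-, h2⟩
              rw [nrm_up] at h2
              exact hc h2
            rw [Set.indicator_of_notMem hA, mul_zero]
        · rw [if_neg hp, Set.indicator_of_notMem (fun h => hp (hmem.1 h)), mul_zero]
    simp_rw [hpt]
    split_ifs with hp
    · exact lint_inv_abs _ hN
    · simp
  simp_rw [h1]
  rw [lintegral_indicator hB, setLIntegral_const, Measure.smul_apply, smul_eq_mul]

theorem mp_prj : MeasurePreserving (fun (x : Fin 3 → V3) (i : Fin 3) => prj (x i))
    ((volume : Measure (Fin 3 → V3)).withDensity (fun x => ∏ i, dens (x i)))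
    ((8 : ℝ≥0∞) • (volume : Measure (Fin 3 → Fin 2 → ℝ))) := by
  have hs : SigmaFinite ((2 : ℝ≥0∞) • (volume : Measure (Fin 2 → ℝ))) := by
    have h1 : (2 : ℝ≥0∞) • (volume : Measure (Fin 2 → ℝ)) =
        (volume : Measure (Fin 2 → ℝ)).withDensity (fun _ => 2) := by
      rw [withDensity_const]
    rw [h1]
    exact SigmaFinite.withDensity_of_ne_top' (fun _ => by norm_num)
  have h1 := measurePreserving_pi
    (fun _ : Fin 3 => (volume : Measure V3).withDensity dens)
    (fun _ : Fin 3 => (2 : ℝ≥0∞) • (volume : Measure (Fin 2 → ℝ)))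
    (f := fun _ => prj) (fun _ => ⟨measurable_prj, map_prj⟩)
  rw [pi_withDensity dens measurable_dens dens_ne_top, pi_smul_volume 2 (by norm_num)] at h1
  have h8 : (2 : ℝ≥0∞) ^ 3 = 8 := by norm_num
  rw [h8] at h1
  exact h1

/-- the set of charts -/
def PS (S : Finset (ℤ × ℤ)) : Set (Fin 3 → Fin 2 → ℝ) :=
  {p | detP (n := 2) p ≠ 0 ∧ IsFace (n := 2) (liftP (n := 2) p) (poly S)}

theorem mem_PS_iff (S : Finset (ℤ × ℤ)) (hS : Dim2 S) (p : Fin 3 → Fin 2 → ℝ) :
    p ∈ PS S ↔ detP (n := 2) p ≠ 0 ∧ UF S (liftP (n := 2) p) := by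
  constructor
  · rintro ⟨h1, h2⟩
    refine ⟨h1, (t_FACE S _ hS h1 (fun i => Or.inl ?_)).1 h2⟩
    rw [liftP_apply]
    show (1 : ℝ) ≠ 0
    norm_num
  · rintro ⟨h1, h2⟩
    exact ⟨h1, backward S _ hS h1 h2⟩

theorem continuous_detP : Continuous (fun p : Fin 3 → Fin 2 → ℝ => detP (n := 2) p) := by
  unfold detP
  apply Continuous.matrix_det
  refine continuous_matrix (fun i j => ?_)
  have : (fun p : Fin 3 → Fin 2 → ℝ => (Matrix.of (liftP (n := 2) p)) i j) =
      fun p => (![p i 0, p i 1, 1] : V3) j := by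
    funext p
    exact congrFun (liftP_apply p i) j
  rw [this]
  fin_cases j
  · exact continuous_apply_apply i 0
  · exact continuous_apply_apply i 1
  · exact continuous_const

/-- the chart map to the group is measurable on the open set `detP ≠ 0` -/
theorem measurable_PS (S : Finset (ℤ × ℤ)) (hS : Dim2 S) : MeasurableSet (PS S) := by
  have hO : IsOpen {p : Fin 3 → Fin 2 → ℝ | detP (n := 2) p ≠ 0} :=
    isOpen_ne_fun continuous_detP continuous_const
  -- the lift
  let L : (Fin 3 → Fin 2 → ℝ) → (Fin 3 → V3) := fun p => liftP (n := 2) p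
  have hL : Continuous L := by
    refine continuous_pi (fun i => continuous_pi (fun j => ?_))
    have : (fun p : Fin 3 → Fin 2 → ℝ => L p i j) = fun p => (![p i 0, p i 1, 1] : V3) j := by
      funext p
      exact congrFun (liftP_apply p i) j
    rw [this]
    fin_cases j
    · exact continuous_apply_apply i 0
    · exact continuous_apply_apply i 1
    · exact continuous_const
  have h1 : PS S = L ⁻¹' (ent '' {g : GR | UF S (ent g)}) := by
    ext p
    rw [mem_PS_iff S hS]
    constructor
    · rintro ⟨h2, h3⟩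
      exact ⟨Matrix.GeneralLinearGroup.mkOfDetNeZero (Matrix.of (liftP (n := 2) p)) h2, h3, rfl⟩
    · rintro ⟨g, hg, hgp⟩
      have hgp' : ent g = liftP (n := 2) p := hgp
      refine ⟨?_, ?_⟩
      · have : detP (n := 2) p = detR g := by
          unfold detP
          rw [← hgp']
          rfl
        rw [this]
        exact detR_ne g
      · rw [← hgp']
        exact hg
  rw [h1]
  exact hL.measurable (measurableEmbedding_ent.measurableSet_image.2 (measurable_UF S))

theorem dens_prod (x : Fin 3 → V3) (h : ∀ i, x i 2 ≠ 0 ∧ 1 ≤ nrm (x i) ∧ nrm (x i) < Real.exp 1) :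
    ∏ i, dens (x i) = ENNReal.ofReal ((|x 0 2 * x 1 2 * x 2 2| ^ 3)⁻¹) := by
  have h1 : ∀ i, dens (x i) = ENNReal.ofReal ((|x i 2| ^ 3)⁻¹) := fun i =>
    Set.indicator_of_mem (s := {v : V3 | v 2 ≠ 0 ∧ 1 ≤ nrm v ∧ nrm v < Real.exp 1}) (h i) _
  rw [Fin.prod_univ_three, h1, h1, h1, ← ENNReal.ofReal_mul (by positivity),
    ← ENNReal.ofReal_mul (by positivity)]
  congr 1
  rw [abs_mul, abs_mul, mul_pow, mul_pow, mul_inv, mul_inv]

theorem pt_eq_prj (x : Fin 3 → V3) : pt x = fun i => prj (x i) := rfl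

theorem t_HW : T_HW := by
  intro S hS
  have hWm := measurable_WS S
  -- the function on the chart
  let H : (Fin 3 → Fin 2 → ℝ) → ℝ≥0∞ :=
    (PS S).indicator (fun p => ENNReal.ofReal ((|detP (n := 2) p| ^ 3)⁻¹))
  have hHm : Measurable H := by
    refine Measurable.indicator ?_ (measurable_PS S hS)
    exact ENNReal.measurable_ofReal.comp ((continuous_detP.abs.pow 3).measurable.inv)
  -- left side
  have e1 : haarG (WS S) = ∫⁻ g in WS S, ENNReal.ofReal ((|detR g| ^ 3)⁻¹) ∂lebG :=
    withDensity_apply _ hWm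
  have e2 : ∫⁻ g in WS S, ENNReal.ofReal ((|detR g| ^ 3)⁻¹) ∂lebG =
      ∫⁻ x in ent '' (WS S), ENNReal.ofReal ((|Matrix.det (Matrix.of x)| ^ 3)⁻¹) := by
    have hmap : Measure.map ent lebG = volume.restrict (Set.range ent) :=
      measurableEmbedding_ent.map_comap _
    have hms : MeasurableSet (ent '' WS S) := measurableEmbedding_ent.measurableSet_image.2 hWm
    have hsub : ent '' WS S ⊆ Set.range ent := Set.image_subset_range _ _
    have h3 : (volume.restrict (Set.range ent)).restrict (ent '' WS S) =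
        (volume : Measure (Fin 3 → V3)).restrict (ent '' WS S) := by
      rw [Measure.restrict_restrict hms, Set.inter_eq_left.2 hsub]
    rw [← h3, ← hmap, measurableEmbedding_ent.restrict_map, measurableEmbedding_ent.lintegral_map,
      Set.preimage_image_eq _ measurableEmbedding_ent.injective]
    rfl
  have hms : MeasurableSet (ent '' WS S) := measurableEmbedding_ent.measurableSet_image.2 hWm
  have e3 : ∫⁻ x in ent '' (WS S), ENNReal.ofReal ((|Matrix.det (Matrix.of x)| ^ 3)⁻¹) =
      ∫⁻ x : Fin 3 → V3, (∏ i, dens (x i)) * H (fun i => prj (x i)) := by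
    rw [← lintegral_indicator hms]
    apply lintegral_congr
    intro x
    by_cases hgood : ∀ i, x i 2 ≠ 0 ∧ 1 ≤ nrm (x i) ∧ nrm (x i) < Real.exp 1
    · have h0 : ∀ i, x i 2 ≠ 0 := fun i => (hgood i).1
      rw [dens_prod x hgood]
      have hz : x 0 2 * x 1 2 * x 2 2 ≠ 0 := mul_ne_zero (mul_ne_zero (h0 0) (h0 1)) (h0 2)
      have hdp := det_pt x h0
      have hiff : x ∈ ent '' (WS S) ↔ (fun i => prj (x i)) ∈ PS S := by
        rw [← pt_eq_prj, mem_PS_iff S hS]
        constructor
        · rintro ⟨g, hg, rfl⟩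
          have hr : Matrix.det (Matrix.of (ent g)) ≠ 0 := detR_ne g
          have hd : detP (n := 2) (pt (ent g)) ≠ 0 := by
            intro h
            rw [h, mul_zero] at hdp
            exact hr hdp
          exact ⟨hd, UF_scale S (ent g) _ hr hd (fun i => ent g i 2) h0 (liftP_pt (ent g) h0) hg.1⟩
        · rintro ⟨hd, hU⟩
          have hr : Matrix.det (Matrix.of x) ≠ 0 := by
            rw [hdp]
            exact mul_ne_zero hz hd
          refine ⟨Matrix.GeneralLinearGroup.mkOfDetNeZero (Matrix.of x) hr, ⟨?_, ?_⟩, rfl⟩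
          · show UF S x
            refine UF_scale S (liftP (n := 2) (pt x)) x hd hr (fun i => (x i 2)⁻¹)
              (fun i => inv_ne_zero (h0 i)) (fun i => ?_) hU
            have h9 := liftP_pt x h0 i
            show liftP (n := 2) (pt x) i = (x i 2)⁻¹ • x i
            rw [h9, smul_smul]
            have h10 : (x i 2 • liftP (n := 2) (pt x) i) 2 = x i 2 := by
              rw [← h9]
            rw [h10, inv_mul_cancel₀ (h0 i), one_smul]
          · intro i
            exact (hgood i).2
      by_cases hx : x ∈ ent '' (WS S)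
      · rw [Set.indicator_of_mem hx]
        have hH : H (fun i => prj (x i)) =
            ENNReal.ofReal ((|detP (n := 2) (fun i => prj (x i))| ^ 3)⁻¹) :=
          Set.indicator_of_mem (hiff.1 hx) _
        rw [hH, ← ENNReal.ofReal_mul (by positivity), hdp, pt_eq_prj]
        congr 1
        rw [abs_mul (x 0 2 * x 1 2 * x 2 2), mul_pow, mul_inv]
      · rw [Set.indicator_of_notMem hx]
        have hH : H (fun i => prj (x i)) = 0 :=
          Set.indicator_of_notMem (fun h => hx (hiff.2 h)) _
        rw [hH, mul_zero]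
    · have hx : x ∉ ent '' (WS S) := by
        rintro ⟨g, hg, rfl⟩
        exact hgood (fun i => ⟨hg.1.1 i, hg.2 i⟩)
      rw [Set.indicator_of_notMem hx]
      push Not at hgood
      obtain ⟨i, hi⟩ := hgood
      have : dens (x i) = 0 := by
        unfold dens
        rw [Set.indicator_of_notMem]
        rintro ⟨h1, h2, h3⟩
        exact absurd h3 (not_lt.2 (hi h1 h2))
      rw [Finset.prod_eq_zero (Finset.mem_univ i) this, zero_mul]
  have hdm : Measurable (fun x : Fin 3 → V3 => ∏ i, dens (x i)) :=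
    Finset.measurable_fun_prod _ (fun i _ => measurable_dens.comp (measurable_pi_apply i))
  have hpm : Measurable (fun (x : Fin 3 → V3) (i : Fin 3) => prj (x i)) := mp_prj.measurable
  have e4 : ∫⁻ x : Fin 3 → V3, (∏ i, dens (x i)) * H (fun i => prj (x i)) =
      ∫⁻ x, H (fun i => prj (x i))
        ∂((volume : Measure (Fin 3 → V3)).withDensity (fun x => ∏ i, dens (x i))) := by
    have hHc : Measurable (fun x : Fin 3 → V3 => H (fun i => prj (x i))) := hHm.comp hpm
    rw [lintegral_withDensity_eq_lintegral_mul _ hdm hHc]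
    rfl
  have e5 := mp_prj.lintegral_comp hHm
  rw [lintegral_smul_measure] at e5
  -- right side
  have e6 : moebius (n := 2) (poly S) =
      ∫⁻ p in PS S, ENNReal.ofReal ((|detP (n := 2) p / ((2 : ℕ).factorial : ℝ)| ^ (2 + 1))⁻¹) := rfl
  have e7 : ∫⁻ p in PS S,
      ENNReal.ofReal ((|detP (n := 2) p / ((2 : ℕ).factorial : ℝ)| ^ (2 + 1))⁻¹) =
      8 * ∫⁻ p, H p := by
    have h1 : ∀ p : Fin 3 → Fin 2 → ℝ,
        ENNReal.ofReal ((|detP (n := 2) p / ((2 : ℕ).factorial : ℝ)| ^ (2 + 1))⁻¹) =
        8 * ENNReal.ofReal ((|detP (n := 2) p| ^ 3)⁻¹) := by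
      intro p
      have h8 : (8 : ℝ≥0∞) = ENNReal.ofReal 8 := by simp
      rw [h8, ← ENNReal.ofReal_mul (by norm_num)]
      congr 1
      rw [abs_div, div_pow]
      have : |((2 : ℕ).factorial : ℝ)| = 2 := by norm_num [Nat.factorial]
      rw [this, inv_div]
      norm_num
      rw [div_eq_mul_inv]
    simp_rw [h1]
    have hm : Measurable (fun p : Fin 3 → Fin 2 → ℝ =>
        ENNReal.ofReal ((|detP (n := 2) p| ^ 3)⁻¹)) :=
      ENNReal.measurable_ofReal.comp ((continuous_detP.abs.pow 3).measurable.inv)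
    rw [lintegral_const_mul _ hm, lintegral_indicator (measurable_PS S hS)]
  rw [e1, e2, e3, e4, e5, e6, e7, smul_eq_mul]

end HWm

theorem t_HW : T_HW := HWm.t_HW

end KF
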